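import Pool.Agent.R313.FM.Int

set_option autoImplicit false

/-! Lengths of Dirichlet polynomials, coefficient sums, mean squares left of the critical line. -/

namespace Pool.Agent.R313.FM

open MeasureTheory Filter Topology Finset Pool.Agent.H306R2 Pool.Agent.W184

/-- asymptotics of the coefficient sum, general length -/
theorem coef_gen {κ δ : ℝ} (hκ : 0 < κ) (N : ℝ → ℕ) (hN1 : ∀ᶠ T : ℝ in atTop, (N T : ℝ) ≤ T)
    (hN2 : ∀ η : ℝ, 0 < η → ∀ᶠ T : ℝ in atTop, ∀ n : ℕ, N T < n → (1 - η) * Real.log T ≤ Real.log n) :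
    Tendsto (fun T : ℝ => (∑ n ∈ Icc 1 (N T), dv κ n ^ 2 *
      (n:ℝ) ^ (-(2 * (1 / 2 + δ / Real.log T)))) / Real.log T ^ (κ ^ 2)) atTop
      (𝓝 (aF κ * gI κ δ)) := by
  have hA := aF_pos hκ
  have key : ∀ (T : ℝ), 1 < T → ∀ n : ℕ, 1 ≤ n → dv κ n ^ 2 * (n:ℝ) ^ (-(2 * (1 / 2 + δ / Real.log T))) =
      dv κ n ^ 2 / n * Real.exp (-(2 * δ * (Real.log n / Real.log T))) := by
    intro T hT n hn
    have hn0 : (0:ℝ) < n := by exact_mod_cast hn
    have e4 : (n:ℝ) ^ (-(2 * (1 / 2 + δ / Real.log T))) =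
        (n:ℝ)⁻¹ * Real.exp (-(2 * δ * (Real.log n / Real.log T))) := by
      rw [show -(2 * (1 / 2 + δ / Real.log T)) = (-1) + (-(2 * δ / Real.log T)) by ring,
        Real.rpow_add hn0, Real.rpow_neg_one, Real.rpow_def_of_pos hn0]
      congr 2
      ring
    rw [e4]; ring
  rw [tendsto_order]
  constructor
  · intro c hc
    have h1 := (tendsto_endpoint (κ := κ) (δ := δ) hκ (fun η => 1 - 2 * η) (by
      have : Tendsto (fun η : ℝ => 1 - 2 * η) (𝓝 0) (𝓝 (1 - 2 * 0)) := by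
        exact (continuous_const.sub (continuous_const.mul continuous_id)).tendsto 0
      rw [mul_zero, sub_zero] at this
      exact this.mono_left nhdsWithin_le_nhds)).const_mul (aF κ)
    obtain ⟨η, hη1, hη, hη2⟩ := ((h1.eventually_const_lt hc).and
      (Ioo_mem_nhdsGT (show (0:ℝ) < 1/4 by norm_num))).exists
    have hη0 : 0 < η := hη
    have hb := (int_cu (δ := δ) (β := 1 - 2 * η) (η := η) hκ (by linarith) hη0).1
    obtain ⟨hs, hk⟩ := kar1 hκ (fun x => Real.exp (-(2 * δ * x)) * cu (1 - 2 * η) η x)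
      (by have := cu_cont (1 - 2 * η) η; fun_prop) 1 zero_le_one (by
        intro x hx
        rw [cu_zero hη0 (by linarith), mul_zero])
    have hlt : c < aF κ * ∫ x, gd (κ ^ 2) x * (Real.exp (-(2 * δ * x)) * cu (1 - 2 * η) η x) :=
      lt_of_lt_of_le hη1 (mul_le_mul_of_nonneg_left hb hA.le)
    have hk2 := (hk.comp Real.tendsto_log_atTop).eventually_const_lt hlt
    filter_upwards [hk2, eventually_gt_atTop 1, hN2 η hη0] with T hT hT1 hT2
    refine lt_of_lt_of_le hT ?_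
    simp only [Function.comp]
    have hL : 0 < Real.log T := Real.log_pos hT1
    refine div_le_div_of_nonneg_right ?_ (by positivity)
    have hz : ∀ n : ℕ, n ∉ Icc 1 (N T) → dv κ n ^ 2 / n * (Real.exp (-(2 * δ * (Real.log n / Real.log T))) *
        cu (1 - 2 * η) η (Real.log n / Real.log T)) = 0 := by
      intro n hn
      rw [mem_Icc, not_and_or] at hn
      rcases hn with hn | hn
      · have : n = 0 := by omega
        subst this; simp
      · push Not at hn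
        rw [cu_zero hη0, mul_zero, mul_zero]
        rw [le_div_iff₀ hL]
        have := hT2 n hn
        nlinarith
    rw [tsum_eq_sum hz]
    refine sum_le_sum fun n hn => ?_
    rw [mem_Icc] at hn
    rw [key T hT1 n hn.1]
    refine mul_le_mul_of_nonneg_left ?_ (by positivity)
    exact mul_le_of_le_one_right (Real.exp_pos _).le (cu_le_one _ _ _)
  · intro c hc
    have h1 := (tendsto_endpoint (κ := κ) (δ := δ) hκ (fun η => 1 + η) (by
      have : Tendsto (fun η : ℝ => 1 + η) (𝓝 0) (𝓝 (1 + 0)) := by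
        exact (continuous_const.add continuous_id).tendsto 0
      rw [add_zero] at this
      exact this.mono_left nhdsWithin_le_nhds)).const_mul (aF κ)
    obtain ⟨η, hη1, hη, hη2⟩ := ((h1.eventually_lt_const hc).and
      (Ioo_mem_nhdsGT (show (0:ℝ) < 1/4 by norm_num))).exists
    have hη0 : 0 < η := hη
    have hb := (int_cu (δ := δ) (β := 1) (η := η) hκ zero_le_one hη0).2
    obtain ⟨hs, hk⟩ := kar1 hκ (fun x => Real.exp (-(2 * δ * x)) * cu 1 η x)
      (by have := cu_cont 1 η; fun_prop) (1 + η) (by linarith) (by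
        intro x hx
        rw [cu_zero hη0 hx, mul_zero])
    have hlt : aF κ * ∫ x, gd (κ ^ 2) x * (Real.exp (-(2 * δ * x)) * cu 1 η x) < c :=
      lt_of_le_of_lt (mul_le_mul_of_nonneg_left hb hA.le) hη1
    have hk2 := (hk.comp Real.tendsto_log_atTop).eventually_lt_const hlt
    filter_upwards [hk2, eventually_gt_atTop 1, hN1] with T hT hT1 hT2
    refine lt_of_le_of_lt ?_ hT
    simp only [Function.comp]
    have hL : 0 < Real.log T := Real.log_pos hT1
    refine div_le_div_of_nonneg_right ?_ (by positivity)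
    have hle : ∑ n ∈ Icc 1 (N T), dv κ n ^ 2 * (n:ℝ) ^ (-(2 * (1 / 2 + δ / Real.log T))) ≤
        ∑ n ∈ Icc 1 (N T), dv κ n ^ 2 / n * (Real.exp (-(2 * δ * (Real.log n / Real.log T))) *
          cu 1 η (Real.log n / Real.log T)) := by
      refine sum_le_sum fun n hn => ?_
      rw [mem_Icc] at hn
      have hn0 : (0:ℝ) < n := by exact_mod_cast hn.1
      have h2 : (n:ℝ) ≤ T := le_trans (by exact_mod_cast hn.2) hT2
      rw [key T hT1 n hn.1, cu_one hη0, mul_one]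
      rw [div_le_one hL]
      exact Real.log_le_log hn0 h2
    refine hle.trans ?_
    refine Summable.sum_le_tsum _ (fun n _ => ?_) (hs (Real.log T) hL)
    exact mul_nonneg (by positivity) (mul_nonneg (Real.exp_pos _).le (cu_nonneg _ _ _))

/-- the length `T / (log T)^m` -/
noncomputable def NN (m : ℕ) (T : ℝ) : ℕ := ⌊T / Real.log T ^ m⌋₊

lemma loglog_tendsto (m : ℕ) :
    Tendsto (fun T : ℝ => (m : ℝ) * Real.log (Real.log T) / Real.log T) atTop (𝓝 0) := by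
  have h1 : Tendsto (fun x : ℝ => Real.log x / x) atTop (𝓝 0) := by
    have := Real.isLittleO_log_id_atTop.tendsto_div_nhds_zero
    simpa using this
  have h2 := (h1.comp Real.tendsto_log_atTop).const_mul (m : ℝ)
  rw [mul_zero] at h2
  refine h2.congr fun T => ?_
  simp only [Function.comp]
  ring

lemma NN_gt (m : ℕ) (η : ℝ) (hη : 0 < η) :
    ∀ᶠ T : ℝ in atTop, ∀ n : ℕ, NN m T < n → (1 - η) * Real.log T ≤ Real.log n := by
  filter_upwards [(loglog_tendsto m).eventually (gt_mem_nhds hη), eventually_gt_atTop (Real.exp 1)]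
    with T h1 h2 n hn
  have hT0 : 0 < T := lt_trans (Real.exp_pos 1) h2
  have hL1 : 1 < Real.log T := by rwa [Real.lt_log_iff_exp_lt hT0]
  have hL : 0 < Real.log T := by linarith
  have hn0 : (0:ℝ) < n := by exact_mod_cast (by omega : 0 < n)
  have h3 : T / Real.log T ^ m < n := (Nat.floor_lt' (by omega)).mp hn
  have h4 : Real.log T - m * Real.log (Real.log T) ≤ Real.log n := by
    rw [← Real.log_pow, ← Real.log_div hT0.ne' (by positivity)]
    exact Real.log_le_log (by positivity) h3.le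
  rw [div_lt_iff₀ hL] at h1
  linarith

lemma NN_le (m : ℕ) : ∀ᶠ T : ℝ in atTop, (NN m T : ℝ) ≤ T := by
  filter_upwards [eventually_gt_atTop (Real.exp 1)] with T h2
  have hT0 : 0 < T := lt_trans (Real.exp_pos 1) h2
  have hL1 : 1 < Real.log T := by rwa [Real.lt_log_iff_exp_lt hT0]
  have h3 : (NN m T : ℝ) ≤ T / Real.log T ^ m := Nat.floor_le (by positivity)
  exact h3.trans (div_le_self hT0.le (one_le_pow₀ hL1.le))

lemma NN_ge (m : ℕ) : ∀ᶠ T : ℝ in atTop, T ^ ((1:ℝ)/2) ≤ T / Real.log T ^ m ∧ 1 ≤ NN m T := by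
  have h := small_pow (-(1/2)) m 1 (by norm_num)
  filter_upwards [h, eventually_gt_atTop (Real.exp 1)] with T h1 h2
  have hT0 : 0 < T := lt_trans (Real.exp_pos 1) h2
  have hT1 : 1 < T := lt_trans (by
    have := Real.add_one_lt_exp (show (1:ℝ) ≠ 0 by norm_num)
    linarith) h2
  have hL1 : 1 < Real.log T := by rwa [Real.lt_log_iff_exp_lt hT0]
  have hLm : 0 < Real.log T ^ m := by positivity
  have h3 : T ^ ((1:ℝ)/2) ≤ T / Real.log T ^ m := by
    rw [le_div_iff₀ hLm]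
    rw [one_mul, Real.rpow_natCast] at h1
    have h4 : T ^ ((1:ℝ)/2) = T * T ^ (-(1/2) : ℝ) := by
      rw [← Real.rpow_one_add' hT0.le (by norm_num)]
      norm_num
    rw [h4, mul_assoc]
    exact mul_le_of_le_one_right hT0.le h1
  refine ⟨h3, ?_⟩
  apply Nat.le_floor
  refine le_trans ?_ h3
  push_cast
  exact Real.one_le_rpow hT1.le (by norm_num)

lemma logNN_tendsto (m : ℕ) : Tendsto (fun T : ℝ => Real.log (NN m T) / Real.log T) atTop (𝓝 1) := by
  rw [tendsto_order]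
  constructor
  · intro c hc
    have hη : 0 < (1 - c) / 2 := by linarith
    have hbig : ∀ᶠ T : ℝ in atTop, Real.log 2 / Real.log T < (1 - c) / 2 :=
      (tendsto_const_nhds.div_atTop Real.tendsto_log_atTop).eventually (gt_mem_nhds hη)
    filter_upwards [NN_gt m ((1 - c) / 2) hη, NN_ge m, eventually_gt_atTop 1, hbig] with T h1 h2 h3 h4
    have hL := Real.log_pos h3
    have h5 := h1 (NN m T + 1) (Nat.lt_succ_self _)
    have hN : (1:ℝ) ≤ NN m T := by exact_mod_cast h2.2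
    have h6 : Real.log ((NN m T + 1 : ℕ) : ℝ) ≤ Real.log (NN m T) + Real.log 2 := by
      rw [← Real.log_mul (by positivity) (by norm_num)]
      refine Real.log_le_log (by positivity) ?_
      push_cast
      linarith
    rw [div_lt_iff₀ hL] at h4
    rw [lt_div_iff₀ hL]
    nlinarith
  · intro c hc
    filter_upwards [NN_le m, NN_ge m, eventually_gt_atTop 1] with T h1 h2 h3
    have hL := Real.log_pos h3
    have hN : (1:ℝ) ≤ NN m T := by exact_mod_cast h2.2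
    refine lt_of_le_of_lt ?_ hc
    rw [div_le_one hL]
    exact Real.log_le_log (by linarith) h1

lemma NN_mul (m : ℕ) : ∀ᶠ T : ℝ in atTop,
    (NN (m + 1) T : ℝ) * (1 + Real.log (NN (m + 1) T)) ≤ 2 * (T / Real.log T ^ m) := by
  filter_upwards [NN_le (m + 1), NN_ge (m + 1), eventually_gt_atTop (Real.exp 1)] with T h1 h2 h3
  have hT0 : 0 < T := lt_trans (Real.exp_pos 1) h3
  have hL1 : 1 < Real.log T := by rwa [Real.lt_log_iff_exp_lt hT0]
  have hN : (1:ℝ) ≤ NN (m + 1) T := by exact_mod_cast h2.2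
  have h4 : (NN (m + 1) T : ℝ) ≤ T / Real.log T ^ (m + 1) := Nat.floor_le (by positivity)
  have h5 : Real.log (NN (m + 1) T) ≤ Real.log T := Real.log_le_log (by linarith) h1
  have h6 := Real.log_nonneg hN
  calc (NN (m + 1) T : ℝ) * (1 + Real.log (NN (m + 1) T)) ≤ (T / Real.log T ^ (m + 1)) * (2 * Real.log T) := by
        refine mul_le_mul h4 (by linarith) (by linarith) (by positivity)
    _ = 2 * (T / Real.log T ^ m) := by
        rw [pow_succ]
        field_simp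

/-- the truncation of `ζ^{1/2}` at `T / (log T)^m` -/
noncomputable def PP (m : ℕ) (T : ℝ) (s : ℂ) : ℂ := DS (dv (1 / ((2:ℕ):ℝ))) (NN m T) s

/-- its square -/
noncomputable def QP (m : ℕ) (T : ℝ) (s : ℂ) : ℂ := PP m T s ^ 2

/-- `|P(σ+it)|^2` -/
noncomputable def pn (m : ℕ) (T σ t : ℝ) : ℝ := ‖PP m T ((σ : ℂ) + t * Complex.I)‖ ^ 2

lemma dv0 (n : ℕ) : 0 ≤ dv (1 / ((2:ℕ):ℝ)) n := dv_nonneg (by norm_num) n

lemma dv1 (n : ℕ) : dv (1 / ((2:ℕ):ℝ)) n ≤ 1 := dv_le_one (by norm_num) (by norm_num) n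

lemma pn_nonneg (m : ℕ) (T σ t : ℝ) : 0 ≤ pn m T σ t := by unfold pn; positivity

lemma PP_diff (m : ℕ) (T : ℝ) : Differentiable ℂ (PP m T) := DS_differentiable _ _

lemma QP_diff (m : ℕ) (T : ℝ) : Differentiable ℂ (QP m T) := (PP_diff m T).pow 2

lemma PP_le (m : ℕ) (T : ℝ) {s : ℂ} (hs : 0 ≤ s.re) : ‖PP m T s‖ ≤ NN m T :=
  DS_norm_le dv0 dv1 _ hs

lemma pn_cont (m : ℕ) (T σ : ℝ) : Continuous (pn m T σ) := by
  unfold pn
  have h1 : Continuous fun t : ℝ => (σ : ℂ) + t * Complex.I := by fun_prop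
  exact (((PP_diff m T).continuous.comp h1).norm).pow 2

/-- mean squares on the lines `1/2 - Δ` -/
lemma pn_mv_neg (m : ℕ) (T : ℝ) {Δ : ℝ} (hΔ : 0 ≤ Δ) (hN : 1 ≤ NN m T) (A B : ℝ) :
    |(∫ t in A..B, pn m T (1 / 2 - Δ) t) - (B - A) * ∑ n ∈ Icc 1 (NN m T), dv (1 / ((2:ℕ):ℝ)) n ^ 2 *
      (n : ℝ) ^ (-(2 * (1 / 2 - Δ)))| ≤
      6 * (NN m T : ℝ) ^ (2 * Δ) * ((NN m T : ℝ) * (1 + Real.log (NN m T))) := by
  set N := NN m T with hNdef
  have hN0 : (0:ℝ) < N := by exact_mod_cast hN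
  set g : ℕ → ℝ := fun n => if n ≤ N then dv (1 / ((2:ℕ):ℝ)) n * ((n:ℝ) / N) ^ Δ else 0 with hg
  have hg0 : ∀ n, 0 ≤ g n := by
    intro n
    simp only [hg]
    split_ifs
    · exact mul_nonneg (dv0 n) (by positivity)
    · exact le_rfl
  have hg1 : ∀ n, g n ≤ 1 := by
    intro n
    simp only [hg]
    split_ifs with h
    · have h1 : ((n:ℝ) / N) ^ Δ ≤ 1 := by
        refine Real.rpow_le_one (by positivity) ?_ hΔ
        rw [div_le_one hN0]
        exact_mod_cast h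
      calc dv (1 / ((2:ℕ):ℝ)) n * ((n:ℝ) / N) ^ Δ ≤ 1 * 1 :=
            mul_le_mul (dv1 n) h1 (by positivity) zero_le_one
        _ = 1 := one_mul 1
    · exact zero_le_one
  have hmv := mv_DS hg0 hg1 (σ := 1 / 2) le_rfl N A B
  have e0 : ∀ n ∈ Icc 1 N, (n:ℝ) ^ Δ * (1 / (N:ℝ) ^ Δ) = ((n:ℝ) / N) ^ Δ := by
    intro n _
    rw [Real.div_rpow (Nat.cast_nonneg n) hN0.le]
    ring
  have e1 : ∀ t : ℝ, pn m T (1 / 2 - Δ) t = (N:ℝ) ^ (2 * Δ) *
      ‖DS g N (((1 / 2 : ℝ) : ℂ) + t * Complex.I)‖ ^ 2 := by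
    intro t
    unfold pn PP
    rw [← hNdef]
    have e2 : DS (dv (1 / ((2:ℕ):ℝ))) N (((1 / 2 - Δ : ℝ) : ℂ) + t * Complex.I) =
        (((N:ℝ) ^ Δ : ℝ) : ℂ) * DS g N (((1 / 2 : ℝ) : ℂ) + t * Complex.I) := by
      unfold DS
      rw [mul_sum]
      refine sum_congr rfl fun n hn => ?_
      have hn' := hn
      rw [mem_Icc] at hn
      have hn0 : (0:ℝ) < n := by exact_mod_cast hn.1
      have hn0' : (n:ℂ) ≠ 0 := by exact_mod_cast hn0.ne'
      simp only [hg]
      rw [if_pos hn.2]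
      have e3 : -((((1 / 2 - Δ : ℝ) : ℂ)) + t * Complex.I) =
          (Δ : ℂ) + -((((1 / 2 : ℝ) : ℂ)) + t * Complex.I) := by push_cast; ring
      rw [e3, Complex.cpow_add _ _ hn0']
      have e4 : (n:ℂ) ^ (Δ : ℂ) = (((n:ℝ) ^ Δ : ℝ) : ℂ) := by
        rw [Complex.ofReal_cpow hn0.le]
        simp
      rw [e4, ← e0 n hn']
      have e5 : (((N:ℝ) ^ Δ : ℝ) : ℂ) ≠ 0 := by
        have : (N:ℝ) ^ Δ ≠ 0 := by positivity
        exact_mod_cast this
      push_cast
      field_simp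
    rw [e2, norm_mul, mul_pow, Complex.norm_real, Real.norm_of_nonneg (by positivity)]
    congr 1
    rw [← Real.rpow_natCast, ← Real.rpow_mul hN0.le]
    congr 1
    push_cast; ring
  have e6 : ∑ n ∈ Icc 1 N, dv (1 / ((2:ℕ):ℝ)) n ^ 2 * (n : ℝ) ^ (-(2 * (1 / 2 - Δ))) =
      (N:ℝ) ^ (2 * Δ) * ∑ n ∈ Icc 1 N, g n ^ 2 * (n : ℝ) ^ (-(2 * (1 / 2 : ℝ))) := by
    rw [mul_sum]
    refine sum_congr rfl fun n hn => ?_
    rw [mem_Icc] at hn
    have hn0 : (0:ℝ) < n := by exact_mod_cast hn.1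
    simp only [hg]
    rw [if_pos hn.2, mul_pow, Real.div_rpow hn0.le hN0.le, div_pow]
    have e7 : (n:ℝ) ^ (-(2 * (1 / 2 - Δ))) = ((n:ℝ) ^ Δ) ^ 2 * (n:ℝ) ^ (-(2 * (1 / 2 : ℝ))) := by
      rw [← Real.rpow_natCast, ← Real.rpow_mul hn0.le, ← Real.rpow_add hn0]
      congr 1; push_cast; ring
    have e8 : (N:ℝ) ^ (2 * Δ) = ((N:ℝ) ^ Δ) ^ 2 := by
      rw [← Real.rpow_natCast, ← Real.rpow_mul hN0.le]
      congr 1; push_cast; ring
    rw [e7, e8]
    have : (N:ℝ) ^ Δ ≠ 0 := by positivity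
    field_simp
  simp_rw [e1]
  rw [intervalIntegral.integral_const_mul, e6,
    show (N:ℝ) ^ (2 * Δ) * (∫ t in A..B, ‖DS g N (((1 / 2 : ℝ) : ℂ) + t * Complex.I)‖ ^ 2) -
      (B - A) * ((N:ℝ) ^ (2 * Δ) * ∑ n ∈ Icc 1 N, g n ^ 2 * (n : ℝ) ^ (-(2 * (1 / 2 : ℝ)))) =
      (N:ℝ) ^ (2 * Δ) * ((∫ t in A..B, ‖DS g N (((1 / 2 : ℝ) : ℂ) + t * Complex.I)‖ ^ 2) -
      (B - A) * ∑ n ∈ Icc 1 N, g n ^ 2 * (n : ℝ) ^ (-(2 * (1 / 2 : ℝ)))) by ring,
    abs_mul, abs_of_nonneg (by positivity : 0 ≤ (N:ℝ) ^ (2 * Δ))]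
  calc (N:ℝ) ^ (2 * Δ) * |(∫ t in A..B, ‖DS g N (((1 / 2 : ℝ) : ℂ) + t * Complex.I)‖ ^ 2) -
      (B - A) * ∑ n ∈ Icc 1 N, g n ^ 2 * (n : ℝ) ^ (-(2 * (1 / 2 : ℝ)))| ≤
      (N:ℝ) ^ (2 * Δ) * (6 * N * (1 + Real.log N)) := mul_le_mul_of_nonneg_left hmv (by positivity)
    _ = _ := by ring

end Pool.Agent.R313.FM
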