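import Pool.Agent.R313.FM.Coef

set_option autoImplicit false

/-! Asymptotic forms of the inequalities, uniformly in intervals `[a, a + H]`. -/

namespace Pool.Agent.R313.FM

open MeasureTheory Filter Topology Pool.Agent.H306R2 Pool.Agent.W184

/-- admissible intervals `[a, a + H]` -/
def Adm (α T a H : ℝ) : Prop := 0 ≤ a ∧ 0 < H ∧ a + H ≤ T ∧ T ≤ H * Real.log T ^ α

/-- `1/2` -/
noncomputable abbrev kh : ℝ := 1 / ((2:ℕ):ℝ)

/-- the target size -/
noncomputable def mm (T H : ℝ) : ℝ := H * Real.log T ^ (kh ^ 2)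

/-- moments on the line `1/2 + δ / log T` -/
noncomputable def ZZ (δ T a H : ℝ) : ℝ := ∫ t in a..(a + H), zn (1 / 2 + δ / Real.log T) t

noncomputable def SZ (m : ℕ) (δ T a H : ℝ) : ℝ := ∫ t in a..(a + H), pn m T (1 / 2 + δ / Real.log T) t

noncomputable def DZ (m : ℕ) (δ T a H : ℝ) : ℝ := ∫ t in a..(a + H), dn (QP m T) (1 / 2 + δ / Real.log T) t

lemma kh_pos : 0 < kh := by unfold kh; norm_num

lemma big_log : ∀ᶠ T : ℝ in atTop, 1 < T ∧ 1 < Real.log T := by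
  filter_upwards [eventually_gt_atTop (Real.exp 1)] with T h2
  have hT0 : 0 < T := lt_trans (Real.exp_pos 1) h2
  have hT1 : 1 < T := lt_trans (by
    have := Real.add_one_lt_exp (show (1:ℝ) ≠ 0 by norm_num)
    linarith) h2
  exact ⟨hT1, by rwa [Real.lt_log_iff_exp_lt hT0]⟩

lemma mm_pos {T H : ℝ} (hT : 1 < T) (hH : 0 < H) : 0 < mm T H := by
  unfold mm
  have := Real.log_pos hT
  positivity

lemma H_small (C : ℝ) {η : ℝ} (hη : 0 < η) : ∀ᶠ T : ℝ in atTop, ∀ H : ℝ, 0 ≤ H → C * H ≤ η * mm T H := by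
  have h1 : Tendsto (fun T : ℝ => Real.log T ^ (kh ^ 2)) atTop atTop :=
    (tendsto_rpow_atTop (by have := kh_pos; positivity)).comp Real.tendsto_log_atTop
  filter_upwards [h1.eventually_ge_atTop (C / η)] with T hT H hH
  unfold mm
  rw [div_le_iff₀ hη] at hT
  nlinarith

lemma pow_le_H (α : ℝ) : ∀ᶠ T : ℝ in atTop, ∀ a H : ℝ, Adm α T a H → T ^ ((7:ℝ)/8) ≤ H ∧ 1 ≤ H := by
  have h := small_pow (-(1/8)) α 1 (by norm_num)
  filter_upwards [h, big_log] with T h1 h2 a H hA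
  obtain ⟨-, hH, -, hTH⟩ := hA
  have hT0 : 0 < T := by linarith [h2.1]
  have hL : 0 < Real.log T := by linarith [h2.2]
  have hLα : 0 < Real.log T ^ α := by positivity
  rw [one_mul] at h1
  have h4 : T ^ ((7:ℝ)/8) = T * T ^ (-(1/8) : ℝ) := by
    rw [← Real.rpow_one_add' hT0.le (by norm_num)]
    norm_num
  have h5 : T ^ ((7:ℝ)/8) ≤ H := by
    rw [h4]
    have h6 : T * T ^ (-(1/8) : ℝ) ≤ (H * Real.log T ^ α) * T ^ (-(1/8) : ℝ) :=
      mul_le_mul_of_nonneg_right hTH (by positivity)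
    refine h6.trans ?_
    calc (H * Real.log T ^ α) * T ^ (-(1/8) : ℝ) = H * (T ^ (-(1/8) : ℝ) * Real.log T ^ α) := by ring
      _ ≤ H * 1 := mul_le_mul_of_nonneg_left h1 hH.le
      _ = H := mul_one H
  exact ⟨h5, (Real.one_le_rpow h2.1.le (by norm_num)).trans h5⟩

lemma mv_err {α : ℝ} {m : ℕ} (hα : α ≤ m) : ∀ᶠ T : ℝ in atTop, ∀ a H : ℝ, Adm α T a H →
    (NN (m + 1) T : ℝ) * (1 + Real.log (NN (m + 1) T)) ≤ 2 * H := by
  filter_upwards [NN_mul m, big_log] with T h1 h2 a H hA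
  obtain ⟨-, hH, -, hTH⟩ := hA
  refine h1.trans (mul_le_mul_of_nonneg_left ?_ (by norm_num))
  have hL : 0 < Real.log T := by linarith [h2.2]
  rw [div_le_iff₀ (by positivity)]
  refine hTH.trans (mul_le_mul_of_nonneg_left ?_ hH.le)
  rw [← Real.rpow_natCast]
  exact Real.rpow_le_rpow_of_exponent_le h2.2.le hα

lemma delta_small (δ : ℝ) {c : ℝ} (hc : 0 < c) : ∀ᶠ T : ℝ in atTop, |δ / Real.log T| ≤ c := by
  have h := (delta_tendsto δ).abs
  rw [abs_zero] at h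
  exact (h.eventually (gt_mem_nhds hc)).mono fun _ h => h.le

lemma T_pow {T : ℝ} (hT : 1 < T) (δ : ℝ) : T ^ (δ / Real.log T) = Real.exp δ := by
  have := Real.log_pos hT
  rw [Real.rpow_def_of_pos (by linarith)]
  congr 1
  field_simp

/-- mean squares near the critical line -/
lemma pn_mv {m : ℕ} (δ : ℝ) : ∀ᶠ T : ℝ in atTop, ∀ A B : ℝ,
    |(∫ t in A..B, pn m T (1 / 2 + δ / Real.log T) t) - (B - A) * ∑ n ∈ Finset.Icc 1 (NN m T),
      dv kh n ^ 2 * (n : ℝ) ^ (-(2 * (1 / 2 + δ / Real.log T)))| ≤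
      6 * Real.exp (2 * |δ|) * ((NN m T : ℝ) * (1 + Real.log (NN m T))) := by
  filter_upwards [NN_ge m, NN_le m, big_log] with T h1 h2 h3 A B
  have hL : 0 < Real.log T := by linarith [h3.2]
  have hN : (1:ℝ) ≤ NN m T := by exact_mod_cast h1.2
  have hX : 0 ≤ (NN m T : ℝ) * (1 + Real.log (NN m T)) := by
    have := Real.log_nonneg hN
    positivity
  rcases le_total 0 δ with h | h
  · have h4 : 0 ≤ δ / Real.log T := by positivity
    have := mv_DS (g := dv kh) dv0 dv1 (σ := 1 / 2 + δ / Real.log T) (by linarith) (NN m T) A B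
    refine this.trans ?_
    have h5 : 1 ≤ Real.exp (2 * |δ|) := Real.one_le_exp (by positivity)
    nlinarith
  · have h4 : 0 ≤ -δ / Real.log T := div_nonneg (by linarith) hL.le
    have h5 := pn_mv_neg m T h4 h1.2 A B
    rw [show 1 / 2 - -δ / Real.log T = 1 / 2 + δ / Real.log T by ring] at h5
    refine h5.trans ?_
    have h6 : (NN m T : ℝ) ^ (2 * (-δ / Real.log T)) ≤ Real.exp (2 * |δ|) := by
      have h7 : 2 * (-δ / Real.log T) = (2 * |δ|) / Real.log T := by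
        rw [abs_of_nonpos h]; ring
      rw [h7, ← T_pow h3.1 (2 * |δ|)]
      exact Real.rpow_le_rpow (by linarith) h2 (by positivity)
    nlinarith

lemma coef_ev (m : ℕ) (δ : ℝ) : Tendsto (fun T : ℝ => (∑ n ∈ Finset.Icc 1 (NN m T), dv kh n ^ 2 *
      (n:ℝ) ^ (-(2 * (1 / 2 + δ / Real.log T)))) / Real.log T ^ (kh ^ 2)) atTop
      (𝓝 (aF kh * gI kh δ)) :=
  coef_gen kh_pos (NN m) (NN_le m) (fun η hη => NN_gt m η hη)

theorem S_ev {α : ℝ} {m : ℕ} (hα : α ≤ m) (δ : ℝ) {η : ℝ} (hη : 0 < η) :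
    ∀ᶠ T : ℝ in atTop, ∀ a H : ℝ, Adm α T a H →
      SZ (m + 1) δ T a H ≤ (aF kh * gI kh δ + η) * mm T H ∧
      (aF kh * gI kh δ - η) * mm T H ≤ SZ (m + 1) δ T a H := by
  have hc := coef_ev (m + 1) δ
  have e1 := hc.eventually_lt_const (show aF kh * gI kh δ < aF kh * gI kh δ + η / 2 by linarith)
  have e2 := hc.eventually_const_lt (show aF kh * gI kh δ - η / 2 < aF kh * gI kh δ by linarith)
  have e3 := H_small (12 * Real.exp (2 * |δ|)) (show 0 < η / 2 by linarith)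
  filter_upwards [e1, e2, e3, mv_err hα, pn_mv (m := m + 1) δ, big_log] with T a1 a2 a3 a4 a5 a6 a H hA
  have hL : 0 < Real.log T := by linarith [a6.2]
  have hLp : 0 < Real.log T ^ (kh ^ 2) := by positivity
  rw [div_lt_iff₀ hLp] at a1
  rw [lt_div_iff₀ hLp] at a2
  have hm := a5 a (a + H)
  rw [show a + H - a = H by ring] at hm
  have hm' := abs_le.mp hm
  have h4 := a4 a H hA
  obtain ⟨-, hH, -, -⟩ := hA
  have h3 := a3 H hH.le
  have h5 : 6 * Real.exp (2 * |δ|) * ((NN (m + 1) T : ℝ) * (1 + Real.log (NN (m + 1) T))) ≤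
      12 * Real.exp (2 * |δ|) * H := by
    have := mul_le_mul_of_nonneg_left h4 (show 0 ≤ 6 * Real.exp (2 * |δ|) by positivity)
    linarith
  set W := ∑ n ∈ Finset.Icc 1 (NN (m + 1) T), dv kh n ^ 2 * (n : ℝ) ^ (-(2 * (1 / 2 + δ / Real.log T)))
  unfold mm at h3 ⊢
  unfold SZ
  constructor
  · nlinarith [hm'.1, hm'.2, mul_lt_mul_of_pos_left a1 hH]
  · nlinarith [hm'.1, hm'.2, mul_lt_mul_of_pos_left a2 hH]

/-- edges of the mean squares -/
lemma edges_pn {α : ℝ} {m : ℕ} (hα : α ≤ m) (δ : ℝ) {η : ℝ} (hη : 0 < η) :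
    ∀ᶠ T : ℝ in atTop, ∀ a H : ℝ, Adm α T a H →
      (∫ t in (a - T ^ ((1:ℝ)/4))..a, pn (m + 1) T (1 / 2 + δ / Real.log T) t) +
      (∫ t in (a + H)..(a + H + T ^ ((1:ℝ)/4)), pn (m + 1) T (1 / 2 + δ / Real.log T) t) ≤ η * mm T H := by
  have hc := coef_ev (m + 1) δ
  have e1 := hc.eventually_lt_const (show aF kh * gI kh δ < aF kh * gI kh δ + 1 by linarith)
  have e3 := H_small (24 * Real.exp (2 * |δ|) + 2 * (|aF kh * gI kh δ| + 1)) hη
  have e4 := small_pow (-(5/8)) (kh ^ 2) 1 (by norm_num)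
  filter_upwards [e1, e3, e4, mv_err hα, pn_mv (m := m + 1) δ, big_log, pow_le_H α]
    with T a1 a3 a33 a4 a5 a6 a7 a H hA
  have hT0 : 0 < T := by linarith [a6.1]
  have hL : 0 < Real.log T := by linarith [a6.2]
  have hLp : 0 < Real.log T ^ (kh ^ 2) := by positivity
  rw [div_lt_iff₀ hLp] at a1
  have hU0 : 0 < T ^ ((1:ℝ)/4) := Real.rpow_pos_of_pos hT0 _
  have m1 := (abs_le.mp (a5 (a - T ^ ((1:ℝ)/4)) a)).2
  have m2 := (abs_le.mp (a5 (a + H) (a + H + T ^ ((1:ℝ)/4)))).2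
  rw [show a - (a - T ^ ((1:ℝ)/4)) = T ^ ((1:ℝ)/4) by ring] at m1
  rw [show a + H + T ^ ((1:ℝ)/4) - (a + H) = T ^ ((1:ℝ)/4) by ring] at m2
  have h4 := a4 a H hA
  have h7 := a7 a H hA
  obtain ⟨-, hH, -, -⟩ := hA
  have h3 := a3 H hH.le
  have h5 : 6 * Real.exp (2 * |δ|) * ((NN (m + 1) T : ℝ) * (1 + Real.log (NN (m + 1) T))) ≤
      12 * Real.exp (2 * |δ|) * H := by
    have := mul_le_mul_of_nonneg_left h4 (show 0 ≤ 6 * Real.exp (2 * |δ|) by positivity)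
    linarith
  have h8 : T ^ ((1:ℝ)/4) * Real.log T ^ (kh ^ 2) ≤ H := by
    refine le_trans ?_ h7.1
    rw [one_mul] at a33
    have h9 : T ^ ((1:ℝ)/4) = T ^ ((7:ℝ)/8) * T ^ (-(5/8) : ℝ) := by
      rw [← Real.rpow_add hT0]; norm_num
    rw [h9, mul_assoc]
    exact mul_le_of_le_one_right (by positivity) a33
  set W := ∑ n ∈ Finset.Icc 1 (NN (m + 1) T), dv kh n ^ 2 * (n : ℝ) ^ (-(2 * (1 / 2 + δ / Real.log T)))
  have h10 : T ^ ((1:ℝ)/4) * W ≤ (|aF kh * gI kh δ| + 1) * H := by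
    have h11 : W ≤ (|aF kh * gI kh δ| + 1) * Real.log T ^ (kh ^ 2) := by
      refine a1.le.trans (mul_le_mul_of_nonneg_right ?_ hLp.le)
      linarith [le_abs_self (aF kh * gI kh δ)]
    calc T ^ ((1:ℝ)/4) * W ≤ T ^ ((1:ℝ)/4) * ((|aF kh * gI kh δ| + 1) * Real.log T ^ (kh ^ 2)) :=
          mul_le_mul_of_nonneg_left h11 hU0.le
      _ = (|aF kh * gI kh δ| + 1) * (T ^ ((1:ℝ)/4) * Real.log T ^ (kh ^ 2)) := by ring
      _ ≤ (|aF kh * gI kh δ| + 1) * H := mul_le_mul_of_nonneg_left h8 (by positivity)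
  have h12 : (24 * Real.exp (2 * |δ|) + 2 * (|aF kh * gI kh δ| + 1)) * H =
      2 * (12 * Real.exp (2 * |δ|) * H) + 2 * ((|aF kh * gI kh δ| + 1) * H) := by ring
  rw [h12] at h3
  have m1' := sub_le_iff_le_add.mp m1
  have m2' := sub_le_iff_le_add.mp m2
  refine (add_le_add m1' m2').trans (le_trans ?_ h3)
  have h13 := add_le_add h5 h10
  refine (add_le_add h13 h13).trans (le_of_eq ?_)
  ring

lemma tail_small (C : ℝ) {η : ℝ} (hη : 0 < η) : ∀ᶠ T : ℝ in atTop, ∀ H : ℝ, 1 ≤ H →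
    C * (Real.log T * T ^ (-((9:ℝ)/4))) ≤ η * mm T H := by
  have h := small_pow (-(9/4)) 1 C (by norm_num)
  filter_upwards [h, H_small 1 hη] with T h1 h2 H hH
  rw [Real.rpow_one] at h1
  have h3 := h2 H (by linarith)
  have e : C * (Real.log T * T ^ (-((9:ℝ)/4))) = C * (T ^ (-(9/4) : ℝ) * Real.log T) := by
    rw [mul_comm (Real.log T)]
  rw [e]
  linarith

/-- turning `fac * D ≤ D0 + E` around, uniformly -/
lemma turn' {F : ℝ → ℝ} {D0 D1 : ℝ → ℝ → ℝ → ℝ} {α c η : ℝ} (hc : 0 < c) (hη : 0 < η)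
    (hF : Tendsto F atTop (𝓝 c))
    (h : ∀ᶠ T in atTop, ∀ a H, Adm α T a H → F T * D1 T a H ≤ D0 T a H + η * mm T H)
    (hD0 : ∀ T a H, 0 ≤ H → 0 ≤ D0 T a H) :
    ∀ᶠ T in atTop, ∀ a H, Adm α T a H → D1 T a H ≤ (c⁻¹ + η) * (D0 T a H + η * mm T H) := by
  have h1 := (hF.inv₀ hc.ne').eventually_lt_const (show c⁻¹ < c⁻¹ + η by linarith)
  filter_upwards [h, h1, hF.eventually_const_lt hc, big_log] with T h2 h3 h4 h6 a H hA
  have hH : 0 < H := hA.2.1
  have h7 : 0 ≤ D0 T a H + η * mm T H := by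
    have := mm_pos h6.1 hH
    have := hD0 T a H hH.le
    positivity
  calc D1 T a H = (F T)⁻¹ * (F T * D1 T a H) := by field_simp
    _ ≤ (F T)⁻¹ * (D0 T a H + η * mm T H) := mul_le_mul_of_nonneg_left (h2 a H hA) (by positivity)
    _ ≤ _ := mul_le_mul_of_nonneg_right h3.le h7

lemma ZZ_nonneg {δ T a H : ℝ} (hH : 0 ≤ H) : 0 ≤ ZZ δ T a H :=
  intervalIntegral.integral_nonneg (by linarith) fun x _ => zn_nonneg _ _

lemma SZ_nonneg {m : ℕ} {δ T a H : ℝ} (hH : 0 ≤ H) : 0 ≤ SZ m δ T a H :=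
  intervalIntegral.integral_nonneg (by linarith) fun x _ => pn_nonneg _ _ _ _

lemma DZ_nonneg {m : ℕ} {δ T a H : ℝ} (hH : 0 ≤ H) : 0 ≤ DZ m δ T a H :=
  intervalIntegral.integral_nonneg (by linarith) fun x _ => dn_nonneg _ _ _

lemma QP_norm (m : ℕ) (T : ℝ) (s : ℂ) : ‖QP m T s‖ = ‖PP m T s‖ ^ 2 := by
  unfold QP; rw [norm_pow]

lemma tr1 (m : ℕ) (T σ t : ℝ) : zn σ t ≤ pn m T σ t + dn (QP m T) σ t := by
  unfold pn dn zn
  rw [← QP_norm]
  set z : ℂ := (σ : ℂ) + t * Complex.I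
  have := norm_add_le (QP m T z) (riemannZeta z - QP m T z)
  rwa [add_sub_cancel] at this

lemma tr2 (m : ℕ) (T σ t : ℝ) : dn (QP m T) σ t ≤ zn σ t + pn m T σ t := by
  unfold pn dn zn
  rw [← QP_norm]
  exact norm_sub_le _ _

lemma tr3 (m : ℕ) (T σ t : ℝ) : pn m T σ t ≤ zn σ t + dn (QP m T) σ t := by
  unfold pn dn zn
  rw [← QP_norm]
  set z : ℂ := (σ : ℂ) + t * Complex.I
  have := norm_sub_le (riemannZeta z) (riemannZeta z - QP m T z)
  rwa [sub_sub_cancel] at this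

lemma TR (m : ℕ) (δ : ℝ) : ∀ᶠ T : ℝ in atTop, ∀ a H : ℝ, 0 ≤ H →
    ZZ δ T a H ≤ SZ m δ T a H + DZ m δ T a H ∧ DZ m δ T a H ≤ ZZ δ T a H + SZ m δ T a H ∧
    SZ m δ T a H ≤ ZZ δ T a H + DZ m δ T a H := by
  filter_upwards [delta_small δ (show (0:ℝ) < 1/8 by norm_num)] with T h1 a H hH
  have h2 := abs_le.mp h1
  have cz := zn_cont (σ := 1 / 2 + δ / Real.log T) (by linarith)
  have cp := pn_cont m T (1 / 2 + δ / Real.log T)
  have cd := dn_cont (QP_diff m T) (σ := 1 / 2 + δ / Real.log T) (by linarith)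
  exact ⟨int_add_le cz cp cd (by linarith) (tr1 m T _), int_add_le cd cz cp (by linarith) (tr2 m T _),
    int_add_le cp cz cd (by linarith) (tr3 m T _)⟩

/-- the functional equation -/
theorem fe_ev {α : ℝ} {δ : ℝ} (hδ : 0 ≤ δ) {η : ℝ} (hη : 0 < η) :
    ∀ᶠ T : ℝ in atTop, ∀ a H : ℝ, Adm α T a H →
      ZZ (-δ) T a H ≤ (Real.exp δ + η) * (ZZ δ T a H + η * mm T H) := by
  have hF := (F_tendsto 2 δ).eventually_lt_const
    (show Real.exp (2 * δ / 2) < Real.exp (2 * δ / 2) + η by linarith)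
  filter_upwards [delta_small δ (show (0:ℝ) < 1/8 by norm_num), big_log, H_small 2000 hη, hF]
    with T h1 h2 h3 h4 a H hA
  have h5 := abs_le.mp h1
  have hL : 0 < Real.log T := by linarith [h2.2]
  have hT0 : 0 < T := by linarith [h2.1]
  have hΔ : 0 ≤ δ / Real.log T := by positivity
  obtain ⟨ha, hH, haT, -⟩ := hA
  have h3' := h3 H hH.le
  have hX : 1 ≤ 2 * T := by linarith [h2.1]
  have e1 : 2 * δ / 2 = δ := by ring
  rw [e1] at h4
  have hc1 : (2 * T) ^ (δ / Real.log T) ≤ Real.exp δ + η := by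
    refine le_trans ?_ h4.le
    have h6 : 1 ≤ Real.exp (2 * (δ / Real.log T) ^ 2) := Real.one_le_exp (by positivity)
    have h7 : 2 * (δ / Real.log T) / 2 = δ / Real.log T := by ring
    rw [h7]
    exact le_mul_of_one_le_left (by positivity) h6
  have cz := zn_cont (σ := 1 / 2 + δ / Real.log T) (by linarith)
  have cz' := zn_cont (σ := 1 / 2 + -δ / Real.log T) (by rw [neg_div]; linarith)
  have step : ZZ (-δ) T a H ≤ (2 * T) ^ (δ / Real.log T) * (ZZ δ T a H + 2000 * H) := by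
    unfold ZZ
    calc ∫ t in a..(a + H), zn (1 / 2 + -δ / Real.log T) t ≤
        ∫ t in a..(a + H), (2 * T) ^ (δ / Real.log T) * (zn (1 / 2 + δ / Real.log T) t + 2000) := by
          refine intervalIntegral.integral_mono_on (by linarith) (cz'.intervalIntegrable _ _)
            (Continuous.intervalIntegrable (by fun_prop) _ _) fun x hx => ?_
          have h8 := fe_p (τ := x) one_pos le_rfl hΔ h5.2 hX (by
            rw [abs_le]; constructor <;> linarith [hx.1, hx.2])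
          simp only [Real.rpow_one, one_mul] at h8
          rw [show 1 / 2 + -δ / Real.log T = 1 / 2 - δ / Real.log T by ring]
          exact h8
      _ = _ := by
          rw [intervalIntegral.integral_const_mul, intervalIntegral.integral_add
            (cz.intervalIntegrable _ _) intervalIntegrable_const, intervalIntegral.integral_const,
            smul_eq_mul]
          congr 2
          ring
  have hZ := ZZ_nonneg (δ := δ) (T := T) (a := a) hH.le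
  calc ZZ (-δ) T a H ≤ (2 * T) ^ (δ / Real.log T) * (ZZ δ T a H + 2000 * H) := step
    _ ≤ (Real.exp δ + η) * (ZZ δ T a H + 2000 * H) := mul_le_mul_of_nonneg_right hc1 (by positivity)
    _ ≤ _ := mul_le_mul_of_nonneg_left (by linarith) (by positivity)

/-- the strip inequality -/
theorem strip_ev {α : ℝ} (δ0 : ℝ) {δ l : ℝ} (hδ : 0 < δ) (hl : 0 < l) {η : ℝ} (hη : 0 < η) :
    ∀ᶠ T : ℝ in atTop, ∀ a H : ℝ, Adm α T a H →
      ZZ δ0 T a H ≤ (1 / 2 + η) * (l * ZZ (δ0 + δ) T a H + l⁻¹ * ZZ (δ0 - δ) T a H) + η * mm T H := by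
  have hl' : 0 < l⁻¹ := inv_pos.mpr hl
  have hE : Tendsto (fun T : ℝ => Real.exp ((δ / Real.log T) ^ 2) / 2) atTop (𝓝 (1 / 2)) := by
    have := ((Real.continuous_exp.tendsto (0 ^ 2)).comp ((delta_tendsto δ).pow 2)).div_const 2
    simpa [Function.comp_def] using this
  have hE1 := hE.eventually_lt_const (show (1:ℝ) / 2 < 1 / 2 + min η 1 by
    have : 0 < min η 1 := lt_min hη one_pos
    linarith)
  set C1 : ℝ := 2 * ((l + l⁻¹) * 72) with hC1
  set C2 : ℝ := 8 * Real.pi * (4 * (Real.exp 1 * (Nat.factorial 16)) / δ) * (12 * (l + l⁻¹)) with hC2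
  filter_upwards [delta_small δ0 (show (0:ℝ) < 1/16 by norm_num),
    delta_small δ (show (0:ℝ) < 1/16 by norm_num), big_log, H_small C1 (half_pos hη),
    tail_small C2 (half_pos hη), hE1, pow_le_H α]
    with T h0 h1 h2 h3 h4 h5 h6 a H hA
  have h0' := abs_le.mp h0
  have h1' := abs_le.mp h1
  have hL : 0 < Real.log T := by linarith [h2.2]
  have hT0 : 0 < T := by linarith [h2.1]
  have hΔ : 0 < δ / Real.log T := by positivity
  have h6' := h6 a H hA
  obtain ⟨ha, hH, haT, -⟩ := hA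
  have h3' := h3 H hH.le
  have h4' := h4 H h6'.2
  have hs := strip_int (σ := 1 / 2 + δ0 / Real.log T) (l := l) hΔ (by linarith) (by linarith) hl h2.1.le
    ha hH.le haT
  rw [show 1 / 2 + δ0 / Real.log T + δ / Real.log T = 1 / 2 + (δ0 + δ) / Real.log T by ring,
    show 1 / 2 + δ0 / Real.log T - δ / Real.log T = 1 / 2 + (δ0 - δ) / Real.log T by ring] at hs
  have hZ1 := ZZ_nonneg (δ := δ0 + δ) (T := T) (a := a) hH.le
  have hZ2 := ZZ_nonneg (δ := δ0 - δ) (T := T) (a := a) hH.le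
  set E := Real.exp ((δ / Real.log T) ^ 2) / 2 with hEdef
  have hE0 : 0 < E := by positivity
  have hE2 : E ≤ 1 / 2 + η := h5.le.trans (by linarith [min_le_left η 1])
  have hE3 : E ≤ 2 := h5.le.trans (by linarith [min_le_right η 1])
  have t1 : E * ((l + l⁻¹) * (72 * T ^ ((7:ℝ)/8))) ≤ C1 * H := by
    calc E * ((l + l⁻¹) * (72 * T ^ ((7:ℝ)/8))) ≤ 2 * ((l + l⁻¹) * (72 * H)) := by
          have := h6'.1
          gcongr
      _ = _ := by rw [hC1]; ring
  have t2 : 8 * Real.pi * (Real.exp ((δ / Real.log T) ^ 2) * (Real.exp 1 * (Nat.factorial 16)) /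
      (δ / Real.log T)) * (12 * (l + l⁻¹)) * T ^ (-((17:ℝ)/4)) ≤
      C2 * (Real.log T * T ^ (-((9:ℝ)/4))) := by
    have hpi := Real.pi_pos
    have u1 : Real.exp ((δ / Real.log T) ^ 2) ≤ 4 := by
      have : Real.exp ((δ / Real.log T) ^ 2) = 2 * E := by rw [hEdef]; ring
      rw [this]; linarith
    have u2 : T ^ (-((17:ℝ)/4)) ≤ T ^ (-((9:ℝ)/4)) :=
      Real.rpow_le_rpow_of_exponent_le h2.1.le (by norm_num)
    calc 8 * Real.pi * (Real.exp ((δ / Real.log T) ^ 2) * (Real.exp 1 * (Nat.factorial 16)) /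
      (δ / Real.log T)) * (12 * (l + l⁻¹)) * T ^ (-((17:ℝ)/4)) ≤
        8 * Real.pi * (4 * (Real.exp 1 * (Nat.factorial 16)) /
      (δ / Real.log T)) * (12 * (l + l⁻¹)) * T ^ (-((9:ℝ)/4)) := by gcongr
      _ = _ := by
        rw [hC2]
        field_simp
  have t3 : E * (l * ZZ (δ0 + δ) T a H + l⁻¹ * ZZ (δ0 - δ) T a H) ≤
      (1 / 2 + η) * (l * ZZ (δ0 + δ) T a H + l⁻¹ * ZZ (δ0 - δ) T a H) :=
    mul_le_mul_of_nonneg_right hE2 (by positivity)
  have hs' : ZZ δ0 T a H ≤ E * (l * ZZ (δ0 + δ) T a H + l⁻¹ * ZZ (δ0 - δ) T a H +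
      (l + l⁻¹) * (72 * T ^ ((7:ℝ)/8))) + 8 * Real.pi * (Real.exp ((δ / Real.log T) ^ 2) *
      (Real.exp 1 * (Nat.factorial 16)) / (δ / Real.log T)) * (12 * (l + l⁻¹)) * T ^ (-((17:ℝ)/4)) := hs
  rw [mul_add] at hs'
  linarith

end Pool.Agent.R313.FM
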