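import Pool.Agent.R313.FM.Ev

set_option autoImplicit false

/-! Half-plane inequalities, asymptotic form. -/

namespace Pool.Agent.R313.FM

open MeasureTheory Filter Topology Pool.Agent.H306R2 Pool.Agent.W184

lemma fac_lim (δ ε : ℝ) (f : ℝ → ℝ) (c : ℝ) (hf0 : ∀ᶠ T in atTop, 0 < f T)
    (hf : Tendsto (fun T => Real.log (f T) / Real.log T) atTop (𝓝 c)) :
    Tendsto (fun T : ℝ => (1 - 8 * (δ / Real.log T)) * (f T) ^ ((δ + ε) / Real.log T) /
      (1 + (δ + ε) / Real.log T) ^ 32 * ((1 / 2 - ε / Real.log T) / (1 - (1 / 2 - ε / Real.log T))))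
      atTop (𝓝 (Real.exp ((δ + ε) * c))) := by
  have h1 : Tendsto (fun T : ℝ => 1 - 8 * (δ / Real.log T)) atTop (𝓝 (1 - 8 * 0)) :=
    ((delta_tendsto δ).const_mul 8).const_sub 1
  have h2 : Tendsto (fun T : ℝ => (1 + (δ + ε) / Real.log T) ^ 32) atTop (𝓝 ((1 + 0) ^ 32)) :=
    ((delta_tendsto (δ + ε)).const_add 1).pow _
  have h3 : Tendsto (fun T : ℝ => (f T) ^ ((δ + ε) / Real.log T)) atTop (𝓝 (Real.exp ((δ + ε) * c))) := by
    have h4 := (Real.continuous_exp.tendsto _).comp (hf.const_mul (δ + ε))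
    refine h4.congr' ?_
    filter_upwards [hf0] with T hT
    simp only [Function.comp]
    rw [Real.rpow_def_of_pos hT]
    congr 1
    ring
  have h5 : Tendsto (fun T : ℝ => (1 / 2 - ε / Real.log T)) atTop (𝓝 (1 / 2 - 0)) :=
    (delta_tendsto ε).const_sub (1 / 2)
  have h6 := h5.div (h5.const_sub 1) (by norm_num)
  have h7 := ((h1.mul h3).div h2 (by norm_num)).mul h6
  refine h7.trans (le_of_eq ?_)
  congr 1
  norm_num

lemma QP_far {m : ℕ} {T : ℝ} (hN : 1 ≤ NN m T) {z : ℂ} (hz : 2 ≤ z.re) :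
    ‖riemannZeta z - QP m T z‖ * (NN m T : ℝ) ^ z.re ≤ (NN m T : ℝ) ^ 2 * ∑' n : ℕ, 1 / (n : ℝ) ^ 2 :=
  zeta_sub_pow_le (v := 2) (by norm_num) hN hz

theorem half_ev {α : ℝ} {m : ℕ} (hα : α ≤ m) {δ ε : ℝ} (hδ : 0 ≤ δ) (hε : 0 ≤ ε) (hs : 0 < δ + ε)
    {η : ℝ} (hη : 0 < η) :
    ∀ᶠ T : ℝ in atTop, ∀ a H : ℝ, Adm α T a H →
      DZ (m + 1) δ T a H ≤ (Real.exp (-(δ + ε)) + η) * (DZ (m + 1) (-ε) T a H + η * mm T H) := by
  have hf0 : ∀ᶠ T : ℝ in atTop, (0:ℝ) < NN (m + 1) T := by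
    filter_upwards [NN_ge (m + 1)] with T hT
    exact_mod_cast hT.2
  have hF := fac_lim δ ε (fun T => (NN (m + 1) T : ℝ)) 1 hf0 (logNN_tendsto (m + 1))
  rw [mul_one] at hF
  have key := turn' (α := α) (D0 := DZ (m + 1) (-ε)) (D1 := DZ (m + 1) δ) (Real.exp_pos _) hη hF ?_
    (fun T a H hH => DZ_nonneg hH)
  · rw [← Real.exp_neg] at key
    exact key
  · set C2 : ℝ := 8 * Real.pi * (1 / (δ + ε)) * 13 with hC2
    filter_upwards [delta_small δ (show (0:ℝ) < 1/8 by norm_num),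
      delta_small ε (show (0:ℝ) < 1/8 by norm_num), NN_ge (m + 1), NN_le (m + 1), big_log,
      edges_pn hα (-ε) (show 0 < η / 4 by linarith), H_small 72 (show 0 < η / 4 by linarith),
      tail_small C2 (show 0 < η / 4 by linarith), pow_le_H α]
      with T h0 h1 h2 h3 h4 h5 h6 h7 h8 a H hA
    have h0' := abs_le.mp h0
    have h1' := abs_le.mp h1
    have hL : 0 < Real.log T := by linarith [h4.2]
    have hT0 : 0 < T := by linarith [h4.1]
    have hΔ : 0 < (δ + ε) / Real.log T := by positivity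
    have hδΔ : 0 ≤ δ / Real.log T := by positivity
    have hεΔ : 0 ≤ ε / Real.log T := by positivity
    have hN1 : (1:ℝ) ≤ NN (m + 1) T := by exact_mod_cast h2.2
    have h5' := h5 a H hA
    have h8' := h8 a H hA
    obtain ⟨ha, hH, haT, -⟩ := hA
    have h6' := h6 H hH.le
    have h7' := h7 H h8'.2
    set b : ℝ := 1 / 2 - ε / Real.log T with hb
    have eb : 1 / 2 + -ε / Real.log T = b := by rw [hb]; ring
    have ebD : b + (δ + ε) / Real.log T = 1 / 2 + δ / Real.log T := by rw [hb]; ring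
    have hb0 : 3 / 8 ≤ b := by rw [hb]; linarith
    have hb1 : b ≤ 1 / 2 := by rw [hb]; linarith
    have hGB : ∀ x, dn (QP (m + 1) T) b x ≤ (12 + T ^ 2) * (1 + |x|) := by
      intro x
      have b1 := tr2 (m + 1) T b x
      have b2 := zn_le' (σ := b) (t := x) hb0 (by linarith)
      have b3 : pn (m + 1) T b x ≤ T ^ 2 := by
        unfold pn
        refine pow_le_pow_left₀ (norm_nonneg _) ?_ 2
        exact (PP_le (m + 1) T (by simp; linarith)).trans h3
      have b4 : 0 ≤ T ^ 2 * |x| := by positivity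
      nlinarith
    have hQ1 : ∀ z : ℂ, b ≤ z.re → z.re ≤ 2 → ‖QP (m + 1) T z‖ ≤ (NN (m + 1) T : ℝ) ^ 2 := by
      intro z hz _
      rw [QP_norm]
      exact pow_le_pow_left₀ (norm_nonneg _) (PP_le (m + 1) T (by linarith)) 2
    have hmain := half_int (Q := QP (m + 1) T) (N := (NN (m + 1) T : ℝ)) (b := b)
      (Δ := (δ + ε) / Real.log T) (a := a) (H := H) (T := T) (B := 12 + T ^ 2) hb0 hb1 hN1
      (QP_diff _ _) hQ1 (fun z hz => QP_far h2.2 hz) hΔ (by rw [ebD]; linarith)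
      (by rw [ebD]; linarith) h4.1.le ha hH.le haT (by positivity) hGB
    rw [ebD] at hmain
    have hρ : 0 < (1 - b) / b := div_pos (by linarith) (by linarith)
    have e8 : 1 / 2 + δ / Real.log T - 1 / 2 = δ / Real.log T := by ring
    rw [e8] at hmain
    -- the edges
    have cz := zn_cont (σ := b) (by linarith)
    have cp := pn_cont (m + 1) T b
    have cd := dn_cont (QP_diff (m + 1) T) (σ := b) (by linarith)
    have hU0 : 0 < T ^ ((1:ℝ)/4) := Real.rpow_pos_of_pos hT0 _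
    have g1 := int_add_le cd cz cp (a := a - T ^ ((1:ℝ)/4)) (b := a) (by linarith) (tr2 (m + 1) T b)
    have g2 := int_add_le cd cz cp (a := a + H) (b := a + H + T ^ ((1:ℝ)/4)) (by linarith)
      (tr2 (m + 1) T b)
    have g3 := edges_zn (σ := b) hb0 (by linarith) h4.1.le ha hH.le haT
    rw [eb] at h5'
    have g4 : 72 * T ^ ((7:ℝ)/8) ≤ 72 * H := by linarith [h8'.1]
    have g5 : 8 * Real.pi * (1 / ((δ + ε) / Real.log T)) * (12 + T ^ 2) * T ^ (-((17:ℝ)/4)) ≤
        C2 * (Real.log T * T ^ (-((9:ℝ)/4))) := by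
      have hpi := Real.pi_pos
      have c1 : 12 + T ^ 2 ≤ 13 * T ^ (2:ℝ) := by
        have : T ^ (2:ℝ) = T ^ 2 := by exact_mod_cast Real.rpow_natCast T 2
        rw [this]
        have c0 : 1 ≤ T ^ 2 := one_le_pow₀ h4.1.le
        linarith
      have c2 : T ^ (2:ℝ) * T ^ (-((17:ℝ)/4)) = T ^ (-((9:ℝ)/4)) := by
        rw [← Real.rpow_add hT0]; norm_num
      calc 8 * Real.pi * (1 / ((δ + ε) / Real.log T)) * (12 + T ^ 2) * T ^ (-((17:ℝ)/4)) ≤
          8 * Real.pi * (1 / ((δ + ε) / Real.log T)) * (13 * T ^ (2:ℝ)) * T ^ (-((17:ℝ)/4)) := by gcongr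
        _ = 8 * Real.pi * (1 / ((δ + ε) / Real.log T)) * 13 * (T ^ (2:ℝ) * T ^ (-((17:ℝ)/4))) := by ring
        _ = _ := by
          rw [c2, hC2]
          field_simp
    have hD : ∫ t in a..(a + H), dn (QP (m + 1) T) b t = DZ (m + 1) (-ε) T a H := by
      unfold DZ; rw [eb]
    rw [hD] at hmain
    have hM : 0 ≤ η * mm T H := by
      have := mm_pos h4.1 hH
      positivity
    have hmain2 : (1 - 8 * (δ / Real.log T)) * (NN (m + 1) T : ℝ) ^ ((δ + ε) / Real.log T) /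
        (1 + (δ + ε) / Real.log T) ^ 32 * DZ (m + 1) δ T a H ≤
        (1 - b) / b * (DZ (m + 1) (-ε) T a H + η * mm T H) := by
      refine hmain.trans (mul_le_mul_of_nonneg_left ?_ hρ.le)
      rw [add_assoc (DZ (m + 1) (-ε) T a H)]
      refine add_le_add_right ?_ _
      linarith
    calc (1 - 8 * (δ / Real.log T)) * (NN (m + 1) T : ℝ) ^ ((δ + ε) / Real.log T) /
      (1 + (δ + ε) / Real.log T) ^ 32 * (b / (1 - b)) * DZ (m + 1) δ T a H =
        (b / (1 - b)) * ((1 - 8 * (δ / Real.log T)) * (NN (m + 1) T : ℝ) ^ ((δ + ε) / Real.log T) /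
      (1 + (δ + ε) / Real.log T) ^ 32 * DZ (m + 1) δ T a H) := by
          rw [mul_comm _ (b / (1 - b)), mul_assoc]
      _ ≤ (b / (1 - b)) * ((1 - b) / b * (DZ (m + 1) (-ε) T a H + η * mm T H)) :=
        mul_le_mul_of_nonneg_left hmain2 (div_nonneg (by linarith) (by linarith))
      _ = DZ (m + 1) (-ε) T a H + η * mm T H := by
        have u1 : b ≠ 0 := by linarith
        have u2 : 1 - b ≠ 0 := by linarith
        field_simp

lemma dn_zero (σ t : ℝ) : dn (fun _ => 0) σ t = zn σ t := by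
  unfold dn zn
  rw [sub_zero]

theorem zhalf_ev {α : ℝ} {δ : ℝ} (hδ : 0 < δ) {η : ℝ} (hη : 0 < η) :
    ∀ᶠ T : ℝ in atTop, ∀ a H : ℝ, Adm α T a H →
      ZZ δ T a H ≤ (1 + η) * (ZZ 0 T a H + η * mm T H) := by
  have hF := fac_lim δ 0 (fun _ => (1:ℝ)) 0 (Eventually.of_forall fun _ => one_pos) (by simp)
  rw [mul_zero, Real.exp_zero] at hF
  have key := turn' (α := α) (D0 := ZZ 0) (D1 := ZZ δ) one_pos hη hF ?_
    (fun T a H hH => ZZ_nonneg hH)
  · rw [inv_one] at key
    exact key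
  · set C2 : ℝ := 8 * Real.pi * (1 / δ) * 12 with hC2
    filter_upwards [delta_small δ (show (0:ℝ) < 1/8 by norm_num), big_log,
      H_small 72 (show 0 < η / 2 by linarith),
      tail_small C2 (show 0 < η / 2 by linarith), pow_le_H α]
      with T h0 h4 h6 h7 h8 a H hA
    have h0' := abs_le.mp h0
    have hL : 0 < Real.log T := by linarith [h4.2]
    have hT0 : 0 < T := by linarith [h4.1]
    have hΔ : 0 < δ / Real.log T := by positivity
    have h8' := h8 a H hA
    obtain ⟨ha, hH, haT, -⟩ := hA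
    have h6' := h6 H hH.le
    have h7' := h7 H h8'.2
    have hGB : ∀ x, dn (fun _ => 0) (1 / 2) x ≤ 12 * (1 + |x|) := by
      intro x
      rw [dn_zero]
      exact zn_le' (by norm_num) (by norm_num)
    have hmain := half_int (Q := fun _ => 0) (N := 1) (C1 := 0) (C2 := 1 + ∑' n : ℕ, 1 / (n : ℝ) ^ 2)
      (b := 1 / 2) (Δ := δ / Real.log T) (a := a) (H := H) (T := T) (B := 12) (by norm_num) le_rfl
      le_rfl (differentiable_const _) (by simp) (fun z hz => zeta_far hz) hΔ (by linarith)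
      (by linarith) h4.1.le ha hH.le haT (by norm_num) hGB
    simp_rw [dn_zero] at hmain
    have e8 : 1 / 2 + δ / Real.log T - 1 / 2 = δ / Real.log T := by ring
    rw [e8] at hmain
    have g3 := edges_zn (σ := 1 / 2) (by norm_num) (by norm_num) h4.1.le ha hH.le haT
    have g4 : 72 * T ^ ((7:ℝ)/8) ≤ 72 * H := by linarith [h8'.1]
    have g5 : 8 * Real.pi * (1 / (δ / Real.log T)) * 12 * T ^ (-((17:ℝ)/4)) ≤
        C2 * (Real.log T * T ^ (-((9:ℝ)/4))) := by
      have hpi := Real.pi_pos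
      have u2 : T ^ (-((17:ℝ)/4)) ≤ T ^ (-((9:ℝ)/4)) :=
        Real.rpow_le_rpow_of_exponent_le h4.1.le (by norm_num)
      calc 8 * Real.pi * (1 / (δ / Real.log T)) * 12 * T ^ (-((17:ℝ)/4)) ≤
          8 * Real.pi * (1 / (δ / Real.log T)) * 12 * T ^ (-((9:ℝ)/4)) := by gcongr
        _ = _ := by
          rw [hC2]
          field_simp
    have hD : ∫ t in a..(a + H), zn (1 / 2) t = ZZ 0 T a H := by
      unfold ZZ; rw [zero_div, add_zero]
    rw [hD] at hmain
    have e9 : (1 - 1 / 2 : ℝ) / (1 / 2) = 1 := by norm_num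
    rw [e9, one_mul] at hmain
    have e10 : (1 / 2 - 0 / Real.log T) / (1 - (1 / 2 - 0 / Real.log T)) = 1 := by
      rw [zero_div]; norm_num
    rw [e10, mul_one, add_zero]
    refine hmain.trans ?_
    rw [add_assoc (ZZ 0 T a H)]
    refine add_le_add_right ?_ _
    linarith

end Pool.Agent.R313.FM
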