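import Pool.Agent.W184.Close

set_option autoImplicit false

/-! Half-plane inequality for `ζ - Q` from a base line to the left of the critical line. -/

namespace Pool.Agent.R313.FM

open MeasureTheory Set Complex Pool.Agent.H306R2 Pool.Agent.W184

lemma norm_ratio_base {b x : ℝ} (hb0 : 0 < b) (hb1 : b ≤ 1 / 2) :
    ‖((b : ℂ) + x * I - 1) / ((b : ℂ) + x * I)‖ ≤ (1 - b) / b := by
  have e1 : ‖(b : ℂ) + x * I - 1‖ ^ 2 = (1 - b) ^ 2 + x ^ 2 := by
    rw [Complex.sq_norm, Complex.normSq_apply]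
    simp
    ring
  have e2 : ‖(b : ℂ) + x * I‖ ^ 2 = b ^ 2 + x ^ 2 := by
    rw [Complex.sq_norm, Complex.normSq_apply]
    simp
    ring
  have h2 : 0 < ‖(b : ℂ) + x * I‖ := by
    rw [norm_pos_iff]
    intro h
    have := congrArg Complex.re h
    simp at this
    linarith
  rw [norm_div, div_le_div_iff₀ h2 hb0]
  have h3 : 0 ≤ (1 - b) * ‖(b : ℂ) + x * I‖ := mul_nonneg (by linarith) h2.le
  refine (abs_le_of_sq_le_sq' ?_ h3).2
  rw [mul_pow, mul_pow, e1, e2]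
  have h4 : b ^ 2 ≤ (1 - b) ^ 2 := by nlinarith
  nlinarith [mul_le_mul_of_nonneg_right h4 (sq_nonneg x)]

lemma Zt_norm_le' {z : ℂ} (h1 : 3 / 8 ≤ z.re) : ‖Zt z‖ ≤ 12 * (‖z‖ + 1) ^ 2 := by
  rcases le_total (1 / 2) z.re with h | h
  · have := Zt_norm_le h
    nlinarith [sq_nonneg (‖z‖ + 1)]
  · have hz1 : z ≠ 1 := by
      rintro rfl; norm_num at h
    rw [← zeta_eq_pos (by linarith) hz1, norm_mul]
    have h2 := zn_le' (σ := z.re) (t := z.im) h1 (by linarith)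
    have h3 : zn z.re z.im = ‖riemannZeta z‖ := by unfold zn; rw [Complex.re_add_im]
    rw [h3] at h2
    have h4 := norm_sub_le z 1
    rw [norm_one] at h4
    have h5 := Complex.abs_im_le_norm z
    have h6 := norm_nonneg z
    calc ‖z - 1‖ * ‖riemannZeta z‖ ≤ (‖z‖ + 1) * (12 * (1 + ‖z‖)) := by
          refine mul_le_mul h4 (h2.trans ?_) (norm_nonneg _) (by positivity)
          linarith
      _ = _ := by ring

lemma K16 {Δ : ℝ} (h0 : 0 < Δ) : Continuous (fun w : ℝ => KP Δ w * (1 + w ^ 2) ^ (-(16 : ℝ))) ∧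
    (∀ w : ℝ, 0 ≤ KP Δ w * (1 + w ^ 2) ^ (-(16 : ℝ))) ∧
    (∀ w : ℝ, KP Δ w * (1 + w ^ 2) ^ (-(16 : ℝ)) ≤ (1 / Δ) * (1 + w ^ 2) ^ (-(16:ℝ))) ∧
    (∫ w, KP Δ w * (1 + w ^ 2) ^ (-(16 : ℝ))) ≤ 1 := by
  have hKc : Continuous (fun w : ℝ => KP Δ w * (1 + w ^ 2) ^ (-(16 : ℝ))) := by
    refine (KP_cont h0).mul ?_
    refine Continuous.rpow_const (by fun_prop) fun w => Or.inl ?_
    positivity
  have hpw : ∀ w : ℝ, (1 + w ^ 2) ^ (-(16:ℝ)) ≤ 1 := fun w =>
    Real.rpow_le_one_of_one_le_of_nonpos (by nlinarith [sq_nonneg w]) (by norm_num)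
  have hK0 : ∀ w : ℝ, 0 ≤ KP Δ w * (1 + w ^ 2) ^ (-(16 : ℝ)) := fun w =>
    mul_nonneg (KP_nonneg h0 w) (by positivity)
  have hKb : ∀ w : ℝ, KP Δ w * (1 + w ^ 2) ^ (-(16 : ℝ)) ≤ (1 / Δ) * (1 + w ^ 2) ^ (-(16:ℝ)) :=
    fun w => mul_le_mul_of_nonneg_right (KP_le h0 w) (by positivity)
  obtain ⟨i1, -, -⟩ := tail_int (A := 1 / Δ) (U := 1) (by positivity) le_rfl hKc hK0 hKb
  refine ⟨hKc, hK0, hKb, ?_⟩
  obtain ⟨j1, j2⟩ := KP_int h0
  refine le_trans ?_ j2.le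
  exact integral_mono i1 j1 fun w => mul_le_of_le_one_right (KP_nonneg h0 w) (hpw w)

lemma pow16 {y w : ℝ} (h : y ^ 2 = 1 + w ^ 2) : (1 / y) ^ 32 = (1 + w ^ 2) ^ (-(16:ℝ)) := by
  have h4 : 0 < 1 + w ^ 2 := by positivity
  have e : (1 + w ^ 2) ^ (-(16:ℝ)) = ((1 + w ^ 2) ^ 16)⁻¹ := by
    rw [Real.rpow_neg h4.le]
    norm_num
  rw [e, ← h, ← pow_mul, one_div, inv_pow]

/-- `|ζ - Q|` on the line `Re s = σ` -/
noncomputable def dn (Q : ℂ → ℂ) (σ t : ℝ) : ℝ :=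
  ‖riemannZeta ((σ : ℂ) + t * Complex.I) - Q ((σ : ℂ) + t * Complex.I)‖

lemma dn_nonneg (Q : ℂ → ℂ) (σ t : ℝ) : 0 ≤ dn Q σ t := norm_nonneg _

lemma dn_cont {Q : ℂ → ℂ} (hQ : Differentiable ℂ Q) {σ : ℝ} (hσ : σ < 1) : Continuous (dn Q σ) := by
  have h := qn_cont hQ (p := 1) (σ := σ) one_pos hσ
  unfold qn at h
  simp only [Real.rpow_one] at h
  exact h

theorem half_pt {Q : ℂ → ℂ} {N C1 C2 b Δ t : ℝ} (hb0 : 3 / 8 ≤ b) (hb1 : b ≤ 1 / 2)
    (hN : 1 ≤ N)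
    (hQd : Differentiable ℂ Q) (hQ1 : ∀ z : ℂ, b ≤ z.re → z.re ≤ 2 → ‖Q z‖ ≤ C1)
    (hQ2 : ∀ z : ℂ, 2 ≤ z.re → ‖riemannZeta z - Q z‖ * N ^ z.re ≤ C2)
    (h0 : 0 < Δ) (h1 : 1 / 2 ≤ b + Δ) (h2 : b + Δ ≤ 5 / 8) :
    ((1 - 8 * (b + Δ - 1 / 2)) * N ^ Δ / (1 + Δ) ^ 32) * dn Q (b + Δ) t ≤
    (1 - b) / b * ∫ w : ℝ, (KP Δ w * (1 + w ^ 2) ^ (-(16 : ℝ))) * dn Q b (t + w) := by
  unfold dn
  have hN0 : 0 < N := by linarith
  have hNc : (N : ℂ) ≠ 0 := by exact_mod_cast hN0.ne'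
  have hb00 : 0 < b := by linarith
  set c : ℂ := (b : ℂ) + t * I with hc
  have hcre : c.re = b := by simp [hc]
  have hcim : c.im = t := by simp [hc]
  set F : ℂ → ℂ := fun z => (Zt z - (z - 1) * Q z) / z * (N : ℂ) ^ (z - (b : ℝ)) *
    (1 / (1 + z - c)) ^ 32 with hF
  have hne : ∀ z : ℂ, 0 < z.re → z ≠ 0 := by
    rintro z hz rfl; simp at hz
  have hne2 : ∀ z : ℂ, 0 < z.re → 1 + z - c ≠ 0 := by
    intro z hz h
    have := congrArg Complex.re h
    simp [hcre] at this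
    linarith
  have hFd : ∀ z : ℂ, 0 < z.re → DifferentiableAt ℂ F z := by
    intro z hz
    refine (((((Zt_differentiableAt hz).sub (by fun_prop)).div differentiableAt_id (hne z hz)).mul
      ?_).mul ?_)
    · exact DifferentiableAt.const_cpow (by fun_prop) (Or.inl hNc)
    · refine DifferentiableAt.pow ?_ _
      exact (differentiableAt_const _).div (by fun_prop) (hne2 z hz)
  have hg1 : ∀ z : ℂ, b ≤ z.re → 1 ≤ ‖1 + z - c‖ := by
    intro z hz
    have := Complex.re_le_norm (1 + z - c)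
    simp only [Complex.add_re, Complex.sub_re, Complex.one_re, hcre] at this
    linarith
  have hFn : ∀ z : ℂ, ‖F z‖ = ‖(Zt z - (z - 1) * Q z) / z‖ * N ^ (z.re - b) *
      (1 / ‖1 + z - c‖) ^ 32 := by
    intro z
    rw [hF]
    simp only
    rw [norm_mul, norm_mul, Complex.norm_cpow_eq_rpow_re_of_pos hN0, norm_pow, norm_div (1:ℂ), norm_one]
    congr 2
  have hZt : ∀ z : ℂ, 0 < z.re → z ≠ 1 → Zt z - (z - 1) * Q z = (z - 1) * (riemannZeta z - Q z) := by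
    intro z hz h1
    rw [← zeta_eq_pos hz h1]; ring
  have hC1 : 0 ≤ C1 := (norm_nonneg _).trans (hQ1 1 (by simp; linarith) (by norm_num))
  have hC2 : 0 ≤ C2 := (mul_nonneg (norm_nonneg _) (by positivity)).trans (hQ2 2 (by norm_num))
  set B : ℝ := 3 * (12 + C1) * (2 + ‖c - 1‖) ^ 2 * N ^ 2 + C2 with hB
  have hb : ∀ z : ℂ, b ≤ z.re → ‖F z‖ ≤ B := by
    intro z hz
    have hz0 : 0 < z.re := by linarith
    have hgz := hg1 z hz
    have hgz0 : 0 < ‖1 + z - c‖ := by linarith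
    have hpw : (1 / ‖1 + z - c‖) ^ 32 ≤ (1 / ‖1 + z - c‖) ^ 2 := by
      refine pow_le_pow_of_le_one (by positivity) ?_ (by norm_num)
      rw [div_le_one hgz0]; exact hgz
    have hzn : 3 / 8 ≤ ‖z‖ := (hb0.trans hz).trans (Complex.re_le_norm z)
    rw [hFn]
    rcases le_total z.re 2 with h2 | h2
    · have b1 : ‖(Zt z - (z - 1) * Q z) / z‖ ≤ 3 * (12 + C1) * (‖z‖ + 1) ^ 2 := by
        rw [norm_div, div_le_iff₀ (by linarith)]
        have a1 := Zt_norm_le' (hb0.trans hz)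
        have a2 : ‖(z - 1) * Q z‖ ≤ (‖z‖ + 1) * C1 := by
          rw [norm_mul]
          have := norm_sub_le z 1
          rw [norm_one] at this
          exact mul_le_mul this (hQ1 z hz h2) (norm_nonneg _) (by positivity)
        have a3 := norm_sub_le (Zt z) ((z - 1) * Q z)
        have a4 : (‖z‖ + 1) * C1 ≤ (‖z‖ + 1) ^ 2 * C1 := by
          have : ‖z‖ + 1 ≤ (‖z‖ + 1) ^ 2 := by nlinarith [norm_nonneg z]
          exact mul_le_mul_of_nonneg_right this hC1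
        have a5 : (12 + C1) * (‖z‖ + 1) ^ 2 ≤ 3 * (12 + C1) * (‖z‖ + 1) ^ 2 * ‖z‖ := by
          have : 0 ≤ (12 + C1) * (‖z‖ + 1) ^ 2 := by positivity
          nlinarith
        nlinarith
      have b2 : N ^ (z.re - b) ≤ N ^ 2 := by
        rw [← Real.rpow_natCast]
        refine Real.rpow_le_rpow_of_exponent_le hN ?_
        push_cast; linarith
      have b3 : ‖z‖ + 1 ≤ ‖1 + z - c‖ * (2 + ‖c - 1‖) := by
        have a1 : ‖z‖ ≤ ‖1 + z - c‖ + ‖c - 1‖ := by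
          have := norm_add_le (1 + z - c) (c - 1)
          rwa [show 1 + z - c + (c - 1) = z by ring] at this
        nlinarith [norm_nonneg (c - 1)]
      have b4 : (‖z‖ + 1) ^ 2 * (1 / ‖1 + z - c‖) ^ 2 ≤ (2 + ‖c - 1‖) ^ 2 := by
        rw [← mul_pow]
        refine pow_le_pow_left₀ (by positivity) ?_ 2
        rw [mul_one_div, div_le_iff₀ hgz0]
        linarith
      calc ‖(Zt z - (z - 1) * Q z) / z‖ * N ^ (z.re - b) * (1 / ‖1 + z - c‖) ^ 32 ≤
          (3 * (12 + C1) * (‖z‖ + 1) ^ 2) * N ^ 2 * (1 / ‖1 + z - c‖) ^ 2 := by gcongr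
        _ = 3 * (12 + C1) * ((‖z‖ + 1) ^ 2 * (1 / ‖1 + z - c‖) ^ 2) * N ^ 2 := by ring
        _ ≤ 3 * (12 + C1) * (2 + ‖c - 1‖) ^ 2 * N ^ 2 := by gcongr
        _ ≤ B := by linarith
    · have hz1 : z ≠ 1 := by
        rintro rfl; norm_num at h2
      rw [hZt z hz0 hz1, nrm_swap]
      have b1 : ‖(z - 1) / z‖ ≤ 1 := by
        rw [norm_div, div_le_one (by linarith)]
        have e1 : ‖z - 1‖ ^ 2 ≤ ‖z‖ ^ 2 := by
          rw [Complex.sq_norm, Complex.sq_norm, Complex.normSq_apply, Complex.normSq_apply]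
          simp
          nlinarith
        exact (abs_le_of_sq_le_sq' e1 (norm_nonneg _)).2
      have b2 : N ^ (z.re - b) ≤ N ^ z.re := Real.rpow_le_rpow_of_exponent_le hN (by linarith)
      have b3 : (1 / ‖1 + z - c‖) ^ 32 ≤ 1 := by
        refine pow_le_one₀ (by positivity) ?_
        rw [div_le_one hgz0]; exact hgz
      calc ‖riemannZeta z - Q z‖ * ‖(z - 1) / z‖ * N ^ (z.re - b) * (1 / ‖1 + z - c‖) ^ 32 ≤
          ‖riemannZeta z - Q z‖ * 1 * N ^ z.re * 1 := by gcongr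
        _ = ‖riemannZeta z - Q z‖ * N ^ z.re := by ring
        _ ≤ C2 := hQ2 z h2
        _ ≤ B := by
          have : 0 ≤ 3 * (12 + C1) * (2 + ‖c - 1‖) ^ 2 * N ^ 2 := by positivity
          linarith
  have hmain := hp_ineq (F := F) (b := b) (t := t) (C := B) (p := 1) h0 one_pos ?_ ?_ ?_
  · simp only [Real.rpow_one] at hmain
    have e1 : ((b : ℂ) + Δ + t * I) = (((b + Δ : ℝ) : ℂ) + t * I) := by push_cast; ring
    have hz1 : ((b : ℂ) + Δ + t * I) ≠ 1 := by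
      intro h
      have := congrArg Complex.re h
      simp at this
      linarith
    have hre : ((b : ℂ) + Δ + t * I).re = b + Δ := by simp
    have hlow : ((1 - 8 * (b + Δ - 1 / 2)) * N ^ Δ / (1 + Δ) ^ 32) *
        ‖riemannZeta (((b + Δ : ℝ) : ℂ) + t * I) - Q (((b + Δ : ℝ) : ℂ) + t * I)‖ ≤
        ‖F ((b : ℂ) + Δ + t * I)‖ := by
      rw [hFn, hZt _ (by rw [hre]; linarith) hz1, nrm_swap, hre, ← e1]
      have h3 := norm_ratio_ge (Δ := b + Δ - 1 / 2) (t := t) (by linarith)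
        (by linarith : 8 * (b + Δ - 1 / 2) ≤ 1)
      have e3 : (((1 / 2 : ℝ) : ℂ) + ((b + Δ - 1 / 2 : ℝ) : ℂ) + t * I) = ((b : ℂ) + Δ + t * I) := by
        push_cast; ring
      rw [e3] at h3
      have e2 : ‖1 + ((b : ℂ) + Δ + t * I) - c‖ = 1 + Δ := by
        rw [hc, show 1 + ((b : ℂ) + Δ + t * I) - ((b : ℂ) + t * I) =
          ((1 + Δ : ℝ) : ℂ) by push_cast; ring, Complex.norm_real, Real.norm_of_nonneg (by linarith)]
      rw [e2, show (b + Δ - b) = Δ by ring, one_div (1 + Δ), inv_pow]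
      have hX := norm_nonneg (riemannZeta ((b : ℂ) + Δ + t * I) - Q ((b : ℂ) + Δ + t * I))
      have hY : 0 ≤ N ^ Δ * ((1 + Δ) ^ 32)⁻¹ := by positivity
      calc ((1 - 8 * (b + Δ - 1 / 2)) * N ^ Δ / (1 + Δ) ^ 32) *
            ‖riemannZeta ((b : ℂ) + Δ + t * I) - Q ((b : ℂ) + Δ + t * I)‖ =
            (1 - 8 * (b + Δ - 1 / 2)) * (‖riemannZeta ((b : ℂ) + Δ + t * I) -
            Q ((b : ℂ) + Δ + t * I)‖ * (N ^ Δ * ((1 + Δ) ^ 32)⁻¹)) := by
              rw [div_eq_mul_inv]; ring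
        _ ≤ ‖((b : ℂ) + Δ + t * I - 1) / ((b : ℂ) + Δ + t * I)‖ *
            (‖riemannZeta ((b : ℂ) + Δ + t * I) -
            Q ((b : ℂ) + Δ + t * I)‖ * (N ^ Δ * ((1 + Δ) ^ 32)⁻¹)) :=
              mul_le_mul_of_nonneg_right h3 (mul_nonneg hX hY)
        _ = _ := by ring
    refine hlow.trans (hmain.trans ?_)
    rw [← integral_const_mul]
    refine integral_mono_of_nonneg (Filter.Eventually.of_forall fun w => ?_) ?_
      (Filter.Eventually.of_forall fun w => ?_)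
    · exact mul_nonneg (KP_nonneg h0 w) (norm_nonneg _)
    · refine Integrable.const_mul ?_ _
      obtain ⟨k1, k2, k3, -⟩ := K16 h0
      obtain ⟨i1, i2, -⟩ := tail_int (A := 1 / Δ) (U := 1) (by positivity) le_rfl k1 k2 k3
      refine conv_int (B := 12 + C1) (by positivity) k1 k2 i2 (dn_cont hQd (by linarith))
        (dn_nonneg Q b) (fun x => ?_) t
      have a1 := zn_le' (σ := b) (t := x) hb0 (by linarith)
      have a2 := hQ1 ((b : ℂ) + x * I) (by simp) (by simp; linarith)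
      have a3 := norm_sub_le (riemannZeta ((b : ℂ) + x * I)) (Q ((b : ℂ) + x * I))
      unfold zn at a1
      unfold dn
      have a4 : 0 ≤ C1 * |x| := mul_nonneg hC1 (abs_nonneg x)
      nlinarith
    · simp only
      have r1 : ((b : ℂ) + ((t + w : ℝ) : ℂ) * I).re = b := by simp
      have hz2 : ((b : ℂ) + ((t + w : ℝ) : ℂ) * I) ≠ 1 := by
        intro h
        have := congrArg Complex.re h
        rw [r1] at this
        norm_num at this
        linarith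
      rw [hFn, hZt _ (by rw [r1]; linarith) hz2, nrm_swap, r1, sub_self, Real.rpow_zero, mul_one]
      have e3 : ‖1 + ((b : ℂ) + ((t + w : ℝ) : ℂ) * I) - c‖ ^ 2 = 1 + w ^ 2 := by
        rw [hc, show 1 + ((b : ℂ) + ((t + w : ℝ) : ℂ) * I) - ((b : ℂ) + t * I) =
          1 + (w : ℂ) * I by push_cast; ring, Complex.sq_norm, Complex.normSq_apply]
        simp
        ring
      have e5 := pow16 e3
      rw [e5]
      have h5 := norm_ratio_base (b := b) (x := t + w) hb00 hb1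
      have h6 := KP_nonneg h0 w
      have h7 : 0 ≤ (1 + w ^ 2) ^ (-(16:ℝ)) := by positivity
      have h8 := norm_nonneg (riemannZeta ((b : ℂ) + ((t + w : ℝ) : ℂ) * I) -
        Q ((b : ℂ) + ((t + w : ℝ) : ℂ) * I))
      calc KP Δ w * (‖riemannZeta ((b : ℂ) + ((t + w : ℝ) : ℂ) * I) -
            Q ((b : ℂ) + ((t + w : ℝ) : ℂ) * I)‖ *
            ‖((b : ℂ) + ((t + w : ℝ) : ℂ) * I - 1) / ((b : ℂ) + ((t + w : ℝ) : ℂ) * I)‖ *
            (1 + w ^ 2) ^ (-(16:ℝ))) ≤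
          KP Δ w * (‖riemannZeta ((b : ℂ) + ((t + w : ℝ) : ℂ) * I) -
            Q ((b : ℂ) + ((t + w : ℝ) : ℂ) * I)‖ * ((1 - b) / b) * (1 + w ^ 2) ^ (-(16:ℝ))) := by
            gcongr
        _ = _ := by ring
  · intro z hz
    have hz' : b < z.re := hz
    exact (hFd z (by linarith)).differentiableWithinAt
  · intro z hz
    have hz' : b ≤ z.re := hz
    exact (hFd z (by linarith)).continuousAt.continuousWithinAt
  · intro z hz
    exact hb z hz.le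

end Pool.Agent.R313.FM
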