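import Pool.Agent.R313.FM.Half

set_option autoImplicit false

/-! Integrated inequalities on intervals `[a, a + H]`. -/

namespace Pool.Agent.R313.FM

open MeasureTheory Set Complex Pool.Agent.H306R2 Pool.Agent.W184

theorem avg_int {K G Hf : ℝ → ℝ} {a H T B A κ : ℝ} (hT : 1 ≤ T) (ha : 0 ≤ a) (hH : 0 ≤ H)
    (haT : a + H ≤ T) (hA : 0 ≤ A) (hB : 0 ≤ B) (hKc : Continuous K) (hK0 : ∀ w, 0 ≤ K w)
    (hKb : ∀ w, K w ≤ A * (1 + w ^ 2) ^ (-(16:ℝ))) (hKm : ∫ w, K w ≤ κ)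
    (hGc : Continuous G) (hG0 : ∀ x, 0 ≤ G x) (hGB : ∀ x, G x ≤ B * (1 + |x|))
    (hHc : Continuous Hf) (hHf : ∀ t, Hf t ≤ ∫ w, K w * G (t + w)) :
    ∫ t in a..(a + H), Hf t ≤ κ * ((∫ t in a..(a + H), G t) +
      ((∫ t in (a - T ^ ((1:ℝ)/4))..a, G t) + ∫ t in (a + H)..(a + H + T ^ ((1:ℝ)/4)), G t)) +
      8 * Real.pi * A * B * T ^ (-((17:ℝ)/4)) := by
  have hT0 : 0 < T := by linarith
  set U : ℝ := T ^ ((1:ℝ)/4) with hU
  have hU1 : 1 ≤ U := Real.one_le_rpow hT (by norm_num)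
  obtain ⟨i1, i2, i3⟩ := tail_int (A := A) (U := U) hA hU1 hKc hK0 hKb
  have hHT : H ≤ T := by linarith
  have haT' : a ≤ T := by linarith
  have hGB' : ∀ x, (fun x => G (a + x)) x ≤ (B * (1 + T)) * (1 + |x|) := by
    intro x
    refine (hGB (a + x)).trans ?_
    rw [mul_assoc]
    refine mul_le_mul_of_nonneg_left ?_ hB
    have h1 := abs_add_le a x
    rw [abs_of_nonneg ha] at h1
    nlinarith [abs_nonneg x, mul_nonneg hT0.le (abs_nonneg x)]
  have hmain := avg_le (K := K) (G := fun x => G (a + x)) (H := fun t => Hf (a + t))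
    (T := H) (U := U) (B := B * (1 + T)) hH (by linarith) (by positivity) hKc hK0 i2 i1
    (hGc.comp (by fun_prop)) (fun x => hG0 _) hGB' (hHc.comp (by fun_prop)) (by
      intro t _
      refine (hHf (a + t)).trans (le_of_eq ?_)
      refine integral_congr_ae (Filter.Eventually.of_forall fun w => ?_)
      simp only [add_assoc])
  have e1 : ∫ t in (0:ℝ)..H, Hf (a + t) = ∫ t in a..(a + H), Hf t := by
    rw [intervalIntegral.integral_comp_add_left (fun x => Hf x) a]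
    simp
  have e2 : ∫ t in (-U)..(H + U), G (a + t) = ∫ t in (a - U)..(a + H + U), G t := by
    rw [intervalIntegral.integral_comp_add_left (fun x => G x) a]
    congr 1; ring
  rw [e1, e2] at hmain
  refine hmain.trans (add_le_add ?_ ?_)
  · have h1 := intervalIntegral.integral_add_adjacent_intervals (hGc.intervalIntegrable (a - U) a)
      (hGc.intervalIntegrable a (a + H)) (μ := volume)
    have h2 := intervalIntegral.integral_add_adjacent_intervals (hGc.intervalIntegrable (a - U) (a + H))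
      (hGc.intervalIntegrable (a + H) (a + H + U)) (μ := volume)
    have e3 : ∫ t in (a - U)..(a + H + U), G t = (∫ t in a..(a + H), G t) +
      ((∫ t in (a - U)..a, G t) + ∫ t in (a + H)..(a + H + U), G t) := by linarith
    rw [e3]
    refine mul_le_mul_of_nonneg_right hKm ?_
    rw [← e3]
    exact intervalIntegral.integral_nonneg (by linarith) fun x _ => hG0 x
  · have h3 : H * (B * (1 + T) * (1 + H)) ≤ 4 * B * T ^ (3:ℝ) := by
      have : T ^ (3:ℝ) = T ^ 3 := by exact_mod_cast Real.rpow_natCast T 3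
      rw [this]
      have c1 : 1 + T ≤ 2 * T := by linarith
      have c2 : 1 + H ≤ 2 * T := by linarith
      calc H * (B * (1 + T) * (1 + H)) ≤ T * (B * (2 * T) * (2 * T)) := by gcongr
        _ = _ := by ring
    have b2 : U ^ (-(29:ℝ)) = T ^ (-((29:ℝ)/4)) := by
      rw [hU, ← Real.rpow_mul hT0.le]; norm_num
    have b4 : T ^ (3:ℝ) * T ^ (-((29:ℝ)/4)) = T ^ (-((17:ℝ)/4)) := by
      rw [← Real.rpow_add hT0]; norm_num
    have hpi := Real.pi_pos
    calc H * (B * (1 + T) * (1 + H)) * ∫ w in {w : ℝ | U < |w|}, K w * (1 + |w|) ≤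
        (4 * B * T ^ (3:ℝ)) * (2 * Real.pi * A * U ^ (-(29:ℝ))) := by
          refine mul_le_mul h3 i3 ?_ (by positivity)
          refine setIntegral_nonneg (measurableSet_lt measurable_const measurable_abs) fun w _ => ?_
          exact mul_nonneg (hK0 w) (by positivity)
      _ = 8 * Real.pi * A * B * (T ^ (3:ℝ) * T ^ (-((29:ℝ)/4))) := by rw [b2]; ring
      _ = _ := by rw [b4]

theorem half_int {Q : ℂ → ℂ} {N C1 C2 b Δ a H T B : ℝ} (hb0 : 3 / 8 ≤ b) (hb1 : b ≤ 1 / 2)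
    (hN : 1 ≤ N)
    (hQd : Differentiable ℂ Q) (hQ1 : ∀ z : ℂ, b ≤ z.re → z.re ≤ 2 → ‖Q z‖ ≤ C1)
    (hQ2 : ∀ z : ℂ, 2 ≤ z.re → ‖riemannZeta z - Q z‖ * N ^ z.re ≤ C2)
    (h0 : 0 < Δ) (h1 : 1 / 2 ≤ b + Δ) (h2 : b + Δ ≤ 5 / 8)
    (hT : 1 ≤ T) (ha : 0 ≤ a) (hH : 0 ≤ H) (haT : a + H ≤ T) (hB : 0 ≤ B)
    (hGB : ∀ x, dn Q b x ≤ B * (1 + |x|)) :
    ((1 - 8 * (b + Δ - 1 / 2)) * N ^ Δ / (1 + Δ) ^ 32) * ∫ t in a..(a + H), dn Q (b + Δ) t ≤
    (1 - b) / b * ((∫ t in a..(a + H), dn Q b t) +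
      ((∫ t in (a - T ^ ((1:ℝ)/4))..a, dn Q b t) + ∫ t in (a + H)..(a + H + T ^ ((1:ℝ)/4)), dn Q b t) +
      8 * Real.pi * (1 / Δ) * B * T ^ (-((17:ℝ)/4))) := by
  obtain ⟨k1, k2, k3, k4⟩ := K16 h0
  have hb00 : 0 < b := by linarith
  have hρ : 0 < (1 - b) / b := div_pos (by linarith) hb00
  set fac : ℝ := ((1 - 8 * (b + Δ - 1 / 2)) * N ^ Δ / (1 + Δ) ^ 32) with hfac
  have hpt := fun t => half_pt (t := t) hb0 hb1 hN hQd hQ1 hQ2 h0 h1 h2
  have hmain := avg_int (K := fun w : ℝ => KP Δ w * (1 + w ^ 2) ^ (-(16 : ℝ))) (G := dn Q b)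
    (Hf := fun t => ((1 - b) / b)⁻¹ * (fac * dn Q (b + Δ) t)) (A := 1 / Δ) (κ := 1)
    hT ha hH haT (by positivity) hB k1 k2 k3 k4
    (dn_cont hQd (by linarith)) (dn_nonneg Q b) hGB
    (continuous_const.mul (continuous_const.mul (dn_cont hQd (by linarith)))) (by
      intro t
      rw [inv_mul_le_iff₀ hρ]
      exact hpt t)
  rw [intervalIntegral.integral_const_mul, intervalIntegral.integral_const_mul, one_mul,
    inv_mul_le_iff₀ hρ] at hmain
  exact hmain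

/-- The strip inequality for `ζ`, with weights. -/
theorem strip_pt {σ Δ l t : ℝ} (h0 : 0 < Δ) (h1 : 3 / 8 ≤ σ - Δ) (h2 : σ + Δ ≤ 3 / 4) (hl : 0 < l) :
    zn σ t ≤ ∫ w : ℝ, (KS Δ w * Real.exp (Δ ^ 2 - w ^ 2)) *
        (l * zn (σ + Δ) (t + w) + l⁻¹ * zn (σ - Δ) (t + w)) := by
  have hDle : Δ ≤ 1 := by linarith
  set c : ℂ := (σ : ℂ) + t * I with hc
  have hcre : c.re = σ := by simp [hc]
  have hcim : c.im = t := by simp [hc]
  set m : ℝ := Real.log l / Δ with hm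
  have hmΔ : m * Δ = Real.log l := by rw [hm]; field_simp
  set F : ℂ → ℂ := fun z => riemannZeta z * Complex.exp (m * (z - σ)) *
    Complex.exp ((z - c) ^ 2) with hF
  have hFd : ∀ z : ℂ, z.re < 1 → DifferentiableAt ℂ F z := by
    intro z hz
    exact ((zeta_diffAt hz).mul (by fun_prop)).mul (by fun_prop)
  have hFn : ∀ z : ℂ, ‖F z‖ = ‖riemannZeta z‖ * Real.exp (m * (z.re - σ)) *
      Real.exp ((z.re - σ) ^ 2 - (z.im - t) ^ 2) := by
    intro z
    rw [hF]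
    simp only
    rw [norm_mul, norm_mul, Complex.norm_exp, Complex.norm_exp]
    congr 2
    · congr 1
      rw [Complex.mul_re]
      simp
    · rw [pow_two, Complex.mul_re, Complex.sub_re, Complex.sub_im, hcre, hcim]
      ring
  have hb : ∀ z : ℂ, |z.re - c.re| ≤ Δ → ‖F z‖ ≤ 12 * (2 + |t|) * Real.exp |Real.log l| * Real.exp 1 := by
    intro z hz
    rw [hcre] at hz
    have hz1 := abs_le.mp hz
    rw [hFn]
    have e1 : ‖riemannZeta z‖ ≤ 12 * (1 + (|t| + |z.im - t|)) := by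
      have h2 := zn_le' (σ := z.re) (t := z.im) (by linarith) (by linarith)
      have h3 : zn z.re z.im = ‖riemannZeta z‖ := by unfold zn; rw [Complex.re_add_im]
      rw [h3] at h2
      have h4 : |z.im| ≤ |t| + |z.im - t| := by
        have := abs_add_le t (z.im - t)
        rwa [add_sub_cancel] at this
      linarith
    have e2 : Real.exp (m * (z.re - σ)) ≤ Real.exp |Real.log l| := by
      refine Real.exp_le_exp.mpr ?_
      calc m * (z.re - σ) ≤ |m * (z.re - σ)| := le_abs_self _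
        _ = |m| * |z.re - σ| := abs_mul _ _
        _ ≤ |m| * Δ := by gcongr
        _ = |m * Δ| := by rw [abs_mul, abs_of_pos h0]
        _ = _ := by rw [hmΔ]
    have e3 : Real.exp ((z.re - σ) ^ 2 - (z.im - t) ^ 2) ≤
        Real.exp 1 * Real.exp (-(z.im - t) ^ 2) := by
      rw [← Real.exp_add]
      refine Real.exp_le_exp.mpr ?_
      have : (z.re - σ) ^ 2 ≤ 1 := by nlinarith
      linarith
    have e4 := gauss_lin (a := |t|) (x := z.im - t) (abs_nonneg t)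
    calc ‖riemannZeta z‖ * Real.exp (m * (z.re - σ)) * Real.exp ((z.re - σ) ^ 2 - (z.im - t) ^ 2) ≤
        (12 * (1 + (|t| + |z.im - t|))) * Real.exp |Real.log l| *
          (Real.exp 1 * Real.exp (-(z.im - t) ^ 2)) := by
          gcongr
      _ = 12 * ((1 + (|t| + |z.im - t|)) * Real.exp (-(z.im - t) ^ 2)) * Real.exp |Real.log l| *
          Real.exp 1 := by ring
      _ ≤ 12 * (2 + |t|) * Real.exp |Real.log l| * Real.exp 1 := by gcongr
  have hmain := strip_ineq (F := F) (c := c) (p := 1) h0 one_pos ?_ ?_ hb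
  · simp only [Real.rpow_one] at hmain
    have e0 : ‖F c‖ = zn σ t := by
      rw [hFn, hcre, hcim]
      simp [zn, hc]
    rw [e0] at hmain
    refine hmain.trans (le_of_eq ?_)
    have hA0 : 0 ≤ Real.exp 1 * (Nat.factorial 16) / 1 ^ 16 := by positivity
    have hKc : Continuous fun w : ℝ => KS Δ w * Real.exp (Δ ^ 2 - w ^ 2) :=
      (KS_cont h0).mul (by fun_prop)
    have hK0 : ∀ w : ℝ, 0 ≤ KS Δ w * Real.exp (Δ ^ 2 - w ^ 2) := fun w =>
      mul_nonneg (KS_nonneg h0 w) (Real.exp_pos _).le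
    have hKb : ∀ w : ℝ, KS Δ w * Real.exp (Δ ^ 2 - w ^ 2) ≤
        (Real.exp (Δ ^ 2) * (Real.exp 1 * (Nat.factorial 16) / 1 ^ 16) / Δ) *
          (1 + w ^ 2) ^ (-(16:ℝ)) := by
      intro w
      have h3 := gauss_poly one_pos w
      rw [one_mul] at h3
      have h4 := KS_le h0 w
      rw [show Δ ^ 2 - w ^ 2 = Δ ^ 2 + -(w ^ 2) by ring, Real.exp_add]
      calc KS Δ w * (Real.exp (Δ ^ 2) * Real.exp (-(w ^ 2))) ≤
          1 / Δ * (Real.exp (Δ ^ 2) * (Real.exp 1 * (Nat.factorial 16) / 1 ^ 16 *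
            (1 + w ^ 2) ^ (-(16:ℝ)))) := by gcongr
        _ = _ := by ring
    obtain ⟨i1, i2, -⟩ := tail_int (U := 1) (by positivity) le_rfl hKc hK0 hKb
    have j1 := conv_int (G := fun x => l * zn (σ + Δ) x) (B := l * 12)
      (by positivity) hKc hK0 i2 (continuous_const.mul (zn_cont (by linarith)))
      (fun x => mul_nonneg hl.le (zn_nonneg _ _)) (fun x => by
        have := zn_le' (σ := σ + Δ) (t := x) (by linarith) (by linarith)
        rw [mul_assoc]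
        exact mul_le_mul_of_nonneg_left this hl.le) t
    have j2 := conv_int (G := fun x => l⁻¹ * zn (σ - Δ) x) (B := l⁻¹ * 12)
      (by positivity) hKc hK0 i2 (continuous_const.mul (zn_cont (by linarith)))
      (fun x => mul_nonneg (inv_pos.mpr hl).le (zn_nonneg _ _)) (fun x => by
        have := zn_le' (σ := σ - Δ) (t := x) (by linarith) (by linarith)
        rw [mul_assoc]
        exact mul_le_mul_of_nonneg_left this (inv_pos.mpr hl).le) t
    have e6 : ∫ w : ℝ, (KS Δ w * Real.exp (Δ ^ 2 - w ^ 2)) *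
        (l * zn (σ + Δ) (t + w) + l⁻¹ * zn (σ - Δ) (t + w)) =
        (∫ w : ℝ, (KS Δ w * Real.exp (Δ ^ 2 - w ^ 2)) * (l * zn (σ + Δ) (t + w))) +
        ∫ w : ℝ, (KS Δ w * Real.exp (Δ ^ 2 - w ^ 2)) * (l⁻¹ * zn (σ - Δ) (t + w)) := by
      rw [← integral_add j1 j2]
      refine integral_congr_ae (Filter.Eventually.of_forall fun w => ?_)
      simp only
      ring
    rw [e6]
    congr 1
    · refine integral_congr_ae (Filter.Eventually.of_forall fun w => ?_)
      simp only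
      have r1 : (c + Δ + (w : ℂ) * I).re = σ + Δ := by simp [hcre]
      have r2 : (c + Δ + (w : ℂ) * I).im = t + w := by simp [hcim]
      have r3 : ‖riemannZeta (c + Δ + (w : ℂ) * I)‖ = zn (σ + Δ) (t + w) := by
        unfold zn
        rw [← r1, ← r2, Complex.re_add_im]
      rw [hFn, r3, r1, r2]
      rw [show m * (σ + Δ - σ) = Real.log l by rw [← hmΔ]; ring, Real.exp_log hl,
        show ((σ + Δ - σ) ^ 2 - (t + w - t) ^ 2) = (Δ ^ 2 - w ^ 2) by ring]
      ring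
    · refine integral_congr_ae (Filter.Eventually.of_forall fun w => ?_)
      simp only
      have r1 : (c - Δ + (w : ℂ) * I).re = σ - Δ := by simp [hcre]
      have r2 : (c - Δ + (w : ℂ) * I).im = t + w := by simp [hcim]
      have r3 : ‖riemannZeta (c - Δ + (w : ℂ) * I)‖ = zn (σ - Δ) (t + w) := by
        unfold zn
        rw [← r1, ← r2, Complex.re_add_im]
      rw [hFn, r3, r1, r2]
      rw [show m * (σ - Δ - σ) = -Real.log l by rw [← hmΔ]; ring, Real.exp_neg, Real.exp_log hl,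
        show ((σ - Δ - σ) ^ 2 - (t + w - t) ^ 2) = (Δ ^ 2 - w ^ 2) by ring]
      ring
  · intro z hz
    have hz' : |z.re - c.re| < Δ := hz
    rw [hcre] at hz'
    have := (abs_lt.mp hz').2
    exact (hFd z (by linarith)).differentiableWithinAt
  · intro z hz
    have hz' : |z.re - c.re| ≤ Δ := hz
    rw [hcre] at hz'
    have := (abs_le.mp hz').2
    exact (hFd z (by linarith)).continuousAt.continuousWithinAt

lemma zn_le2 {σ x T : ℝ} (h1 : 3 / 8 ≤ σ) (h2 : σ ≤ 3 / 4)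
    (hT : 1 ≤ T) (hx : |x| ≤ 2 * T) : zn σ x ≤ 36 * T ^ ((5:ℝ)/8) := by
  have := zp_le2 (x := x) one_pos le_rfl h1 h2 hT hx
  rwa [Real.rpow_one] at this

lemma edges_zn {σ a H T : ℝ} (h1 : 3 / 8 ≤ σ) (h2 : σ ≤ 3 / 4)
    (hT : 1 ≤ T) (ha : 0 ≤ a) (hH : 0 ≤ H) (haT : a + H ≤ T) :
    (∫ t in (a - T ^ ((1:ℝ)/4))..a, zn σ t) + ∫ t in (a + H)..(a + H + T ^ ((1:ℝ)/4)), zn σ t ≤
      72 * T ^ ((7:ℝ)/8) := by
  have hT0 : 0 < T := by linarith
  have hU : T ^ ((1:ℝ)/4) ≤ T := rpow_le_self_of_one_le' hT (by norm_num)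
  have hU0 : 0 < T ^ ((1:ℝ)/4) := Real.rpow_pos_of_pos hT0 _
  have hc := zn_cont (σ := σ) (by linarith)
  have a1 := int_le_of_le hc (a := a - T ^ ((1:ℝ)/4)) (b := a) (C := 36 * T ^ ((5:ℝ)/8)) (by linarith)
    (fun x hx => zn_le2 h1 h2 hT (by
      rw [abs_le]; constructor <;> linarith [hx.1, hx.2]))
  have a2 := int_le_of_le hc (a := a + H) (b := a + H + T ^ ((1:ℝ)/4)) (C := 36 * T ^ ((5:ℝ)/8))
    (by linarith) (fun x hx => zn_le2 h1 h2 hT (by
      rw [abs_le]; constructor <;> linarith [hx.1, hx.2]))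
  have h3 : T ^ ((1:ℝ)/4) * T ^ ((5:ℝ)/8) = T ^ ((7:ℝ)/8) := by
    rw [← Real.rpow_add hT0]
    norm_num
  have e1 : a - (a - T ^ ((1:ℝ)/4)) = T ^ ((1:ℝ)/4) := by ring
  have e2 : a + H + T ^ ((1:ℝ)/4) - (a + H) = T ^ ((1:ℝ)/4) := by ring
  rw [e1] at a1
  rw [e2] at a2
  have e3 : T ^ ((1:ℝ)/4) * (36 * T ^ ((5:ℝ)/8)) = 36 * T ^ ((7:ℝ)/8) := by
    rw [← h3]; ring
  linarith

theorem strip_int {σ Δ l a H T : ℝ} (h0 : 0 < Δ) (h1 : 3 / 8 ≤ σ - Δ) (h2 : σ + Δ ≤ 3 / 4) (hl : 0 < l)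
    (hT : 1 ≤ T) (ha : 0 ≤ a) (hH : 0 ≤ H) (haT : a + H ≤ T) :
    ∫ t in a..(a + H), zn σ t ≤ Real.exp (Δ ^ 2) / 2 *
      (l * (∫ t in a..(a + H), zn (σ + Δ) t) + l⁻¹ * (∫ t in a..(a + H), zn (σ - Δ) t) +
        (l + l⁻¹) * (72 * T ^ ((7:ℝ)/8))) +
      8 * Real.pi * (Real.exp (Δ ^ 2) * (Real.exp 1 * (Nat.factorial 16)) / Δ) * (12 * (l + l⁻¹)) *
        T ^ (-((17:ℝ)/4)) := by
  have hDle : Δ ≤ 1 := by linarith
  have hl' : 0 < l⁻¹ := inv_pos.mpr hl
  have hKc : Continuous fun w : ℝ => KS Δ w * Real.exp (Δ ^ 2 - w ^ 2) :=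
    (KS_cont h0).mul (by fun_prop)
  have hK0 : ∀ w : ℝ, 0 ≤ KS Δ w * Real.exp (Δ ^ 2 - w ^ 2) := fun w =>
    mul_nonneg (KS_nonneg h0 w) (Real.exp_pos _).le
  have hKb : ∀ w : ℝ, KS Δ w * Real.exp (Δ ^ 2 - w ^ 2) ≤
      (Real.exp (Δ ^ 2) * (Real.exp 1 * (Nat.factorial 16)) / Δ) * (1 + w ^ 2) ^ (-(16:ℝ)) := by
    intro w
    have h3 := gauss_poly one_pos w
    rw [one_mul, one_pow, div_one] at h3
    have h4 := KS_le h0 w
    rw [show Δ ^ 2 - w ^ 2 = Δ ^ 2 + -(w ^ 2) by ring, Real.exp_add]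
    calc KS Δ w * (Real.exp (Δ ^ 2) * Real.exp (-(w ^ 2))) ≤
        1 / Δ * (Real.exp (Δ ^ 2) * (Real.exp 1 * (Nat.factorial 16) *
          (1 + w ^ 2) ^ (-(16:ℝ)))) := by gcongr
      _ = _ := by ring
  obtain ⟨i1, -, -⟩ := tail_int (U := 1) (by positivity) le_rfl hKc hK0 hKb
  have hKm : ∫ w, KS Δ w * Real.exp (Δ ^ 2 - w ^ 2) ≤ Real.exp (Δ ^ 2) / 2 := by
    calc ∫ w, KS Δ w * Real.exp (Δ ^ 2 - w ^ 2) ≤ ∫ w, Real.exp (Δ ^ 2) * KS Δ w := by
          refine integral_mono i1 ((KS_integrable h0).const_mul _) fun w => ?_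
          beta_reduce
          rw [mul_comm]
          refine mul_le_mul_of_nonneg_right ?_ (KS_nonneg h0 w)
          refine Real.exp_le_exp.mpr ?_
          nlinarith [sq_nonneg w]
      _ = _ := by rw [integral_const_mul, KS_integral h0]; ring
  have c1 := zn_cont (σ := σ + Δ) (by linarith)
  have c2 := zn_cont (σ := σ - Δ) (by linarith)
  have hGc : Continuous fun x => l * zn (σ + Δ) x + l⁻¹ * zn (σ - Δ) x :=
    (continuous_const.mul c1).add (continuous_const.mul c2)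
  have hmain := avg_int (K := fun w : ℝ => KS Δ w * Real.exp (Δ ^ 2 - w ^ 2))
    (G := fun x => l * zn (σ + Δ) x + l⁻¹ * zn (σ - Δ) x) (Hf := zn σ) (B := 12 * (l + l⁻¹))
    hT ha hH haT (by positivity) (by positivity) hKc hK0 hKb hKm hGc
    (fun x => add_nonneg (mul_nonneg hl.le (zn_nonneg _ _)) (mul_nonneg hl'.le (zn_nonneg _ _)))
    (fun x => by
      have b1 := zn_le' (σ := σ + Δ) (t := x) (by linarith) (by linarith)
      have b2 := zn_le' (σ := σ - Δ) (t := x) (by linarith) (by linarith)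
      have b3 := mul_le_mul_of_nonneg_left b1 hl.le
      have b4 := mul_le_mul_of_nonneg_left b2 hl'.le
      linarith) (zn_cont (by linarith)) (fun t => strip_pt h0 h1 h2 hl)
  have sp : ∀ x y : ℝ, ∫ t in x..y, (l * zn (σ + Δ) t + l⁻¹ * zn (σ - Δ) t) =
      l * (∫ t in x..y, zn (σ + Δ) t) + l⁻¹ * ∫ t in x..y, zn (σ - Δ) t := by
    intro x y
    have g1 : Continuous fun t => l * zn (σ + Δ) t := continuous_const.mul c1
    have g2 : Continuous fun t => l⁻¹ * zn (σ - Δ) t := continuous_const.mul c2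
    rw [intervalIntegral.integral_add (g1.intervalIntegrable _ _)
      (g2.intervalIntegrable _ _), intervalIntegral.integral_const_mul,
      intervalIntegral.integral_const_mul]
  rw [sp, sp, sp] at hmain
  refine hmain.trans (add_le_add_left (mul_le_mul_of_nonneg_left ?_ (by positivity)) _)
  have d1 := edges_zn (σ := σ + Δ) (by linarith) (by linarith) hT ha hH haT
  have d2 := edges_zn (σ := σ - Δ) (by linarith) (by linarith) hT ha hH haT
  have d3 := mul_le_mul_of_nonneg_left d1 hl.le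
  have d4 := mul_le_mul_of_nonneg_left d2 hl'.le
  linarith

end Pool.Agent.R313.FM
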