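import Pool.Agent.W184.Const

set_option autoImplicit false

/-! Numerical bounds. -/

namespace Pool.Agent.R313.FM

open MeasureTheory Filter Topology Pool.Agent.H306R2 Pool.Agent.W184

/-- Taylor bound for `exp u`, `0 ≤ u ≤ a` -/
lemma exp_taylor_up (n : ℕ) : ∀ a u : ℝ, 0 ≤ u → u ≤ a →
    Real.exp u ≤ ∑ k ∈ Finset.range n, u ^ k / (k.factorial : ℝ) + Real.exp a * (u ^ n / (n.factorial : ℝ)) := by
  induction n with
  | zero =>
    intro a u hu hua
    simp
    exact hua
  | succ n ih =>
    intro a u hu hua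
    set f : ℝ → ℝ := fun u => ∑ k ∈ Finset.range (n + 1), u ^ k / (k.factorial : ℝ) +
      Real.exp a * (u ^ (n + 1) / ((n + 1).factorial : ℝ)) - Real.exp u with hf
    have hd : ∀ u, HasDerivAt f (∑ k ∈ Finset.range n, u ^ k / (k.factorial : ℝ) +
        Real.exp a * (u ^ n / (n.factorial : ℝ)) - Real.exp u) u := by
      intro u
      have h2 : HasDerivAt (fun u : ℝ => ∑ k ∈ Finset.range (n + 1), u ^ k / (k.factorial : ℝ))
          (∑ k ∈ Finset.range (n + 1), ((k:ℝ) * u ^ (k - 1)) / (k.factorial : ℝ)) u := by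
        refine HasDerivAt.fun_sum fun k _ => ?_
        exact HasDerivAt.div_const (hasDerivAt_pow k u) _
      have h3 : (∑ k ∈ Finset.range (n + 1), ((k:ℝ) * u ^ (k - 1)) / (k.factorial : ℝ)) =
          ∑ k ∈ Finset.range n, u ^ k / (k.factorial : ℝ) := by
        rw [Finset.sum_range_succ']
        simp only [Nat.cast_zero, zero_mul, zero_div, add_zero]
        refine Finset.sum_congr rfl fun k _ => ?_
        rw [Nat.add_sub_cancel, Nat.factorial_succ]
        push_cast
        have : (k:ℝ) + 1 ≠ 0 := by positivity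
        have : (k.factorial : ℝ) ≠ 0 := by positivity
        field_simp
      rw [h3] at h2
      have h4 : HasDerivAt (fun u : ℝ => Real.exp a * (u ^ (n + 1) / ((n + 1).factorial : ℝ)))
          (Real.exp a * (u ^ n / (n.factorial : ℝ))) u := by
        have := ((hasDerivAt_pow (n + 1) u).div_const ((n + 1).factorial : ℝ)).const_mul (Real.exp a)
        refine this.congr_deriv ?_
        rw [Nat.add_sub_cancel, Nat.factorial_succ]
        push_cast
        have : (n:ℝ) + 1 ≠ 0 := by positivity
        have : (n.factorial : ℝ) ≠ 0 := by positivity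
        field_simp
      exact (h2.add h4).sub (Real.hasDerivAt_exp u)
    have hmono : MonotoneOn f (Set.Icc 0 a) := by
      refine monotoneOn_of_deriv_nonneg (convex_Icc 0 a)
        (fun u _ => (hd u).continuousAt.continuousWithinAt)
        (fun u _ => (hd u).differentiableAt.differentiableWithinAt) ?_
      intro u hu
      rw [interior_Icc] at hu
      rw [(hd u).deriv]
      have := ih a u hu.1.le hu.2.le
      linarith
    have h0 : f 0 = 0 := by
      simp only [hf]
      rw [Finset.sum_range_succ']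
      simp
    have := hmono (Set.mem_Icc.mpr ⟨le_rfl, hu.trans hua⟩) (Set.mem_Icc.mpr ⟨hu, hua⟩) hu
    rw [h0] at this
    simp only [hf] at this
    linarith

/-- upper bound for `hI` at a negative argument -/
lemma hI_neg_up {s a : ℝ} (hs : 0 < s) (ha : 0 ≤ a) (n : ℕ) :
    hI s (-a) ≤ ∑ k ∈ Finset.range n, a ^ k / (k.factorial : ℝ) * (s / (s + k)) +
      Real.exp a * (a ^ n / (n.factorial : ℝ)) * (s / (s + n)) := by
  have e2 : ∀ x : ℝ, s * x ^ (s - 1) * (∑ k ∈ Finset.range n, (a * x) ^ k / (k.factorial : ℝ) +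
      Real.exp a * ((a * x) ^ n / (n.factorial : ℝ))) =
      ∑ k ∈ Finset.range n, a ^ k / (k.factorial : ℝ) * (s * x ^ (s - 1) * x ^ k) +
      Real.exp a * (a ^ n / (n.factorial : ℝ)) * (s * x ^ (s - 1) * x ^ n) := by
    intro x
    rw [mul_add, Finset.mul_sum]
    congr 1
    · refine Finset.sum_congr rfl fun k _ => ?_
      rw [mul_pow]
      ring
    · rw [mul_pow]
      ring
  have e1 : ∑ k ∈ Finset.range n, a ^ k / (k.factorial : ℝ) * (s / (s + k)) +
      Real.exp a * (a ^ n / (n.factorial : ℝ)) * (s / (s + n)) =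
      ∫ x in (0:ℝ)..1, s * x ^ (s - 1) * (∑ k ∈ Finset.range n, (a * x) ^ k / (k.factorial : ℝ) +
      Real.exp a * ((a * x) ^ n / (n.factorial : ℝ))) := by
    simp_rw [e2]
    have ik : ∀ k : ℕ, IntervalIntegrable (fun x : ℝ => s * x ^ (s - 1) * x ^ k) volume 0 1 :=
      fun k => (rpow_ii hs 0 1).mul_continuousOn (by fun_prop)
    have is : ∀ k ∈ Finset.range n, IntervalIntegrable
        (fun x : ℝ => a ^ k / (k.factorial : ℝ) * (s * x ^ (s - 1) * x ^ k)) volume 0 1 :=
      fun k _ => (ik k).const_mul _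
    have isum : IntervalIntegrable (fun x : ℝ => ∑ k ∈ Finset.range n,
        a ^ k / (k.factorial : ℝ) * (s * x ^ (s - 1) * x ^ k)) volume 0 1 := by
      have := IntervalIntegrable.sum (Finset.range n) is
      refine this.congr ?_
      intro x _
      simp
    rw [intervalIntegral.integral_add isum ((ik n).const_mul _),
      intervalIntegral.integral_finsetSum is, intervalIntegral.integral_const_mul, int_mono hs]
    congr 1
    refine Finset.sum_congr rfl fun k _ => ?_
    rw [intervalIntegral.integral_const_mul, int_mono hs]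
  rw [e1]
  unfold hI
  refine intervalIntegral.integral_mono_on zero_le_one ?_ ?_ fun x hx => ?_
  · exact (rpow_ii hs 0 1).mul_continuousOn (by fun_prop)
  · exact (rpow_ii hs 0 1).mul_continuousOn (by fun_prop)
  · refine mul_le_mul_of_nonneg_left ?_ (mul_nonneg hs.le (Real.rpow_nonneg hx.1 _))
    rw [show -(-a * x) = a * x by ring]
    exact exp_taylor_up n a (a * x) (mul_nonneg ha hx.1) (by nlinarith [hx.2])

/-- the exponent `1/4` -/
noncomputable abbrev q4 : ℝ := (1 / ((2:ℕ):ℝ)) ^ 2

lemma q4_pos : 0 < q4 := by unfold q4; norm_num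

/-- positive exponentials from negative ones -/
lemma exp_inv (x : ℝ) : Real.exp x = (Real.exp (-x))⁻¹ := by rw [Real.exp_neg, inv_inv]

lemma e059 : Real.exp (59 / 100) ≤ 1.804 := by
  have h := exp_lo (u := 59 / 100) (by norm_num) 9 (by decide)
  simp only [Finset.sum_range_succ, Finset.sum_range_zero, Nat.factorial] at h
  rw [exp_inv]
  rw [inv_le_comm₀ (Real.exp_pos _) (by norm_num)]
  refine le_trans ?_ h
  norm_num

lemma e22n : Real.exp (-(11 / 5)) ≤ 0.110804 := by
  have h := exp_up (u := 11 / 5) (by norm_num) 18 (by decide)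
  simp only [Finset.sum_range_succ, Finset.sum_range_zero, Nat.factorial] at h
  refine h.trans ?_
  norm_num

lemma e22n' : 0.110802 ≤ Real.exp (-(11 / 5)) := by
  have h := exp_lo (u := 11 / 5) (by norm_num) 17 (by decide)
  simp only [Finset.sum_range_succ, Finset.sum_range_zero, Nat.factorial] at h
  refine le_trans ?_ h
  norm_num

lemma e338 : Real.exp (-(169 / 50)) ≤ 0.034049 := by
  have h := exp_up (u := 169 / 50) (by norm_num) 22 (by decide)
  simp only [Finset.sum_range_succ, Finset.sum_range_zero, Nat.factorial] at h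
  refine h.trans ?_
  norm_num

lemma h236 : hI q4 (59 / 25) ≤ 0.72329 := by
  have h := hI_up (s := q4) (a := 59 / 25) q4_pos (by norm_num) 16 (by decide)
  simp only [Finset.sum_range_succ, Finset.sum_range_zero, Nat.factorial] at h
  refine h.trans ?_
  norm_num

lemma h44 : hI q4 (22 / 5) ≤ 0.62523 := by
  have h := hI_up (s := q4) (a := 22 / 5) q4_pos (by norm_num) 24 (by decide)
  simp only [Finset.sum_range_succ, Finset.sum_range_zero, Nat.factorial] at h
  refine h.trans ?_
  norm_num

lemma h88 : 0.526255 ≤ hI q4 (44 / 5) := by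
  have h := hI_lo (s := q4) (a := 44 / 5) q4_pos (by norm_num) 39 (by decide)
  simp only [Finset.sum_range_succ, Finset.sum_range_zero, Nat.factorial] at h
  refine le_trans ?_ h
  norm_num

lemma h176 : hI q4 (88 / 5) ≤ 0.442531 := by
  have h := hI_up (s := q4) (a := 88 / 5) q4_pos (by norm_num) 64 (by decide)
  simp only [Finset.sum_range_succ, Finset.sum_range_zero, Nat.factorial] at h
  refine h.trans ?_
  norm_num

lemma exp5 : Real.exp (22 / 5) ≤ 100 := by
  have h := exp_lo (u := 22 / 5) (by norm_num) 21 (by decide)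
  simp only [Finset.sum_range_succ, Finset.sum_range_zero, Nat.factorial] at h
  rw [exp_inv]
  rw [inv_le_comm₀ (Real.exp_pos _) (by norm_num)]
  refine le_trans ?_ h
  norm_num

lemma hm44 : hI q4 (-(22 / 5)) ≤ 6.4221 := by
  have h := hI_neg_up (s := q4) (a := 22 / 5) q4_pos (by norm_num) 24
  simp only [Finset.sum_range_succ, Finset.sum_range_zero, Nat.factorial] at h
  have h2 : Real.exp (22 / 5) * ((22 / 5) ^ 24 / ((Nat.factorial 24 : ℕ) : ℝ)) * (q4 / (q4 + (24:ℕ))) ≤
      100 * ((22 / 5) ^ 24 / ((Nat.factorial 24 : ℕ) : ℝ)) * (q4 / (q4 + (24:ℕ))) := by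
    have := exp5
    have := q4_pos
    gcongr
  simp only [Nat.factorial] at h2
  refine h.trans ((add_le_add_right h2 _).trans ?_)
  norm_num

lemma hm28 : hI q4 (-(14 / 5)) ≤ 2.53583 := by
  have h := hI_neg_up (s := q4) (a := 14 / 5) q4_pos (by norm_num) 20
  simp only [Finset.sum_range_succ, Finset.sum_range_zero, Nat.factorial] at h
  have h2 : Real.exp (14 / 5) * ((14 / 5) ^ 20 / ((Nat.factorial 20 : ℕ) : ℝ)) * (q4 / (q4 + (20:ℕ))) ≤
      100 * ((14 / 5) ^ 20 / ((Nat.factorial 20 : ℕ) : ℝ)) * (q4 / (q4 + (20:ℕ))) := by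
    have h3 : Real.exp (14 / 5) ≤ 100 := (Real.exp_le_exp.mpr (by norm_num)).trans exp5
    have := q4_pos
    gcongr
  simp only [Nat.factorial] at h2
  refine h.trans ((add_le_add_right h2 _).trans ?_)
  norm_num

lemma e58 : Real.exp (-(29 / 5)) ≤ 0.0030276 := by
  have h := exp_up (u := 29 / 5) (by norm_num) 30 (by decide)
  simp only [Finset.sum_range_succ, Finset.sum_range_zero, Nat.factorial] at h
  refine h.trans ?_
  norm_num

lemma e44 : Real.exp (-(22 / 5)) ≤ 0.012278 := by
  have h := exp_up (u := 22 / 5) (by norm_num) 26 (by decide)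
  simp only [Finset.sum_range_succ, Finset.sum_range_zero, Nat.factorial] at h
  refine h.trans ?_
  norm_num

/-- the numerical inequality for the upper bound -/
lemma num_upper : Real.exp (59 / 100) * (hI q4 (59 / 25) + Real.exp (-(169 / 50)) *
    ((hI q4 (-(22 / 5)) + Real.exp (11 / 5) * hI q4 (22 / 5)) / (1 - Real.exp (-(11 / 5))))) <
    107 / 50 := by
  have a1 := e059
  have a2 := h236
  have a3 := e338
  have a4 := hm44
  have a5 := h44
  have a6 := e22n
  have a7 := e22n'
  have e22 : Real.exp (11 / 5) ≤ 9.02512 := by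
    rw [exp_inv, inv_le_comm₀ (Real.exp_pos _) (by norm_num)]
    refine le_trans ?_ a7
    norm_num
  have b1 := Real.exp_pos (59 / 100)
  have b3 := Real.exp_pos (-(169 / 50))
  have b5 := Real.exp_pos (11 / 5)
  have hden : 0.889196 ≤ 1 - Real.exp (-(11 / 5)) := by linarith
  have c1 : Real.exp (11 / 5) * hI q4 (22 / 5) ≤ 9.02512 * 0.62523 := by
    calc Real.exp (11 / 5) * hI q4 (22 / 5) ≤ Real.exp (11 / 5) * 0.62523 :=
          mul_le_mul_of_nonneg_left a5 b5.le
      _ ≤ _ := mul_le_mul_of_nonneg_right e22 (by norm_num)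
  have c2 : (hI q4 (-(22 / 5)) + Real.exp (11 / 5) * hI q4 (22 / 5)) / (1 - Real.exp (-(11 / 5))) ≤
      (6.4221 + 9.02512 * 0.62523) / 0.889196 := by
    rw [div_le_div_iff₀ (by linarith) (by norm_num)]
    have : hI q4 (-(22 / 5)) + Real.exp (11 / 5) * hI q4 (22 / 5) ≤ 6.4221 + 9.02512 * 0.62523 := by
      linarith
    calc (hI q4 (-(22 / 5)) + Real.exp (11 / 5) * hI q4 (22 / 5)) * 0.889196 ≤
        (6.4221 + 9.02512 * 0.62523) * 0.889196 := mul_le_mul_of_nonneg_right this (by norm_num)
      _ ≤ _ := mul_le_mul_of_nonneg_left hden (by norm_num)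
  have c3 : Real.exp (-(169 / 50)) *
      ((hI q4 (-(22 / 5)) + Real.exp (11 / 5) * hI q4 (22 / 5)) / (1 - Real.exp (-(11 / 5)))) ≤
      0.034049 * ((6.4221 + 9.02512 * 0.62523) / 0.889196) := by
    calc _ ≤ Real.exp (-(169 / 50)) * ((6.4221 + 9.02512 * 0.62523) / 0.889196) :=
          mul_le_mul_of_nonneg_left c2 b3.le
      _ ≤ _ := mul_le_mul_of_nonneg_right a3 (by norm_num)
  calc Real.exp (59 / 100) * (hI q4 (59 / 25) + Real.exp (-(169 / 50)) *
    ((hI q4 (-(22 / 5)) + Real.exp (11 / 5) * hI q4 (22 / 5)) / (1 - Real.exp (-(11 / 5))))) ≤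
      Real.exp (59 / 100) * (0.72329 + 0.034049 * ((6.4221 + 9.02512 * 0.62523) / 0.889196)) :=
        mul_le_mul_of_nonneg_left (by linarith) b1.le
    _ ≤ 1.804 * (0.72329 + 0.034049 * ((6.4221 + 9.02512 * 0.62523) / 0.889196)) :=
        mul_le_mul_of_nonneg_right a1 (by norm_num)
    _ < 107 / 50 := by norm_num

end Pool.Agent.R313.FM
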