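import Pool.Agent.R313.FM.Ev2
import Pool.Agent.R313.FM.Num

set_option autoImplicit false

/-! The two-sided bounds for the first moment. -/

namespace Pool.Agent.R313.FM

open MeasureTheory Filter Topology Pool.Agent.H306R2 Pool.Agent.W184

/-- the normalised mean square -/
noncomputable def gg (δ : ℝ) : ℝ := aF kh * gI kh δ

/-- bound for the difference on the line `1/2 - δ / log T` -/
noncomputable def X0 (δ : ℝ) : ℝ := (gg (-δ) + Real.exp δ * gg δ) / (1 - Real.exp (-δ))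

lemma exists_small {Φ : ℝ → ℝ} {c : ℝ} (hΦ : ContinuousAt Φ 0) (h0 : Φ 0 < c) (P : ℝ → Prop)
    (hP : ∀ᶠ η in 𝓝[>] (0:ℝ), P η) : ∃ η : ℝ, 0 < η ∧ Φ η < c ∧ P η := by
  have h1 : ∀ᶠ η in 𝓝[>] (0:ℝ), Φ η < c :=
    (hΦ.eventually (gt_mem_nhds h0)).filter_mono nhdsWithin_le_nhds
  obtain ⟨η, h2, h3, h4⟩ := (h1.and (hP.and self_mem_nhdsWithin)).exists
  exact ⟨η, h4, h2, h3⟩

theorem Dm_ev {α : ℝ} {m : ℕ} (hα : α ≤ m) {δ : ℝ} (hδ : 0 < δ) {c : ℝ} (hc : X0 δ < c) :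
    ∀ᶠ T : ℝ in atTop, ∀ a H : ℝ, Adm α T a H → DZ (m + 1) (-δ) T a H ≤ c * mm T H := by
  set E := Real.exp δ with hE
  set q := Real.exp (-(δ + δ)) with hq
  have hE0 : 0 < E := Real.exp_pos _
  have hq0 : 0 < q := Real.exp_pos _
  have hEq : E * q = Real.exp (-δ) := by rw [hE, hq, ← Real.exp_add]; congr 1; ring
  have hEq1 : E * q < 1 := by rw [hEq, Real.exp_lt_one_iff]; linarith
  set Φ : ℝ → ℝ := fun η => ((E + η) * (gg δ + 2 * η + (q + η) * η) + gg (-δ) + η) /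
    (1 - (E + η) * (q + η)) with hΦ
  have hΦ0 : Φ 0 < c := by
    refine lt_of_eq_of_lt ?_ hc
    simp only [hΦ, X0]
    rw [← hEq]
    ring
  have hcont : ContinuousAt Φ 0 := by
    simp only [hΦ]
    refine ContinuousAt.div (by fun_prop) (by fun_prop) ?_
    simp only [add_zero]
    linarith
  have hcont2 : ContinuousAt (fun η : ℝ => (E + η) * (q + η)) 0 := by fun_prop
  obtain ⟨η, hη, h1, h2⟩ := exists_small hcont hΦ0 (fun η => (E + η) * (q + η) < 1)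
    ((hcont2.eventually (gt_mem_nhds (by simpa using hEq1))).filter_mono nhdsWithin_le_nhds)
  filter_upwards [S_ev hα δ hη, S_ev hα (-δ) hη, fe_ev (α := α) hδ.le hη,
    half_ev hα hδ.le hδ.le (by linarith) hη, TR (m + 1) δ, TR (m + 1) (-δ), big_log]
    with T s1 s2 f1 d1 t1 t2 b1 a H hA
  have hH : 0 < H := hA.2.1
  have hM := mm_pos b1.1 hH
  obtain ⟨s1, -⟩ := s1 a H hA
  obtain ⟨s2, -⟩ := s2 a H hA
  have f1 := f1 a H hA
  have d1 := d1 a H hA
  obtain ⟨t1, -, -⟩ := t1 a H hH.le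
  obtain ⟨-, t2, -⟩ := t2 a H hH.le
  set M := mm T H
  set D := DZ (m + 1) (-δ) T a H
  change SZ (m + 1) δ T a H ≤ (gg δ + η) * M at s1
  change SZ (m + 1) (-δ) T a H ≤ (gg (-δ) + η) * M at s2
  have k1 : ZZ δ T a H + η * M ≤ (gg δ + η) * M + (q + η) * (D + η * M) + η * M := by linarith
  have k2 : ZZ (-δ) T a H ≤ (E + η) * ((gg δ + η) * M + (q + η) * (D + η * M) + η * M) :=
    f1.trans (mul_le_mul_of_nonneg_left k1 (by positivity))
  have k3 : D * (1 - (E + η) * (q + η)) ≤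
      ((E + η) * (gg δ + 2 * η + (q + η) * η) + gg (-δ) + η) * M := by nlinarith
  have k4 : 0 < 1 - (E + η) * (q + η) := by linarith
  have k5 : D ≤ Φ η * M := by
    simp only [hΦ]
    rw [div_mul_eq_mul_div, le_div_iff₀ k4]
    exact k3
  exact k5.trans (mul_le_mul_of_nonneg_right h1.le hM.le)

theorem Z_ev {α : ℝ} {m : ℕ} (hα : α ≤ m) {δ δ1 : ℝ} (hδ : 0 ≤ δ) (hδ1 : 0 < δ1) {c : ℝ}
    (hc : gg δ + Real.exp (-(δ + δ1)) * X0 δ1 < c) :
    ∀ᶠ T : ℝ in atTop, ∀ a H : ℝ, Adm α T a H → ZZ δ T a H ≤ c * mm T H := by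
  set q := Real.exp (-(δ + δ1)) with hq
  have hq0 : 0 < q := Real.exp_pos _
  set Φ : ℝ → ℝ := fun η => gg δ + η + (q + η) * (X0 δ1 + η + η) with hΦ
  have hΦ0 : Φ 0 < c := by
    simp only [hΦ, add_zero]
    exact hc
  have hcont : ContinuousAt Φ 0 := by
    simp only [hΦ]
    fun_prop
  obtain ⟨η, hη, h1, -⟩ := exists_small hcont hΦ0 (fun _ => True) (Eventually.of_forall fun _ => trivial)
  filter_upwards [S_ev hα δ hη, half_ev hα hδ hδ1.le (by linarith) hη, TR (m + 1) δ,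
    Dm_ev hα hδ1 (show X0 δ1 < X0 δ1 + η by linarith), big_log] with T s1 d1 t1 x1 b1 a H hA
  have hH : 0 < H := hA.2.1
  have hM := mm_pos b1.1 hH
  obtain ⟨s1, -⟩ := s1 a H hA
  have d1 := d1 a H hA
  have x1 := x1 a H hA
  obtain ⟨t1, -, -⟩ := t1 a H hH.le
  set M := mm T H
  change SZ (m + 1) δ T a H ≤ (gg δ + η) * M at s1
  have k1 : DZ (m + 1) δ T a H ≤ (q + η) * ((X0 δ1 + η) * M + η * M) :=
    d1.trans (mul_le_mul_of_nonneg_left (by linarith) (by positivity))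
  have k2 : ZZ δ T a H ≤ Φ η * M := by
    simp only [hΦ]
    linarith
  exact k2.trans (mul_le_mul_of_nonneg_right h1.le hM.le)

theorem upper_ev {α : ℝ} {δ δ1 : ℝ} (hδ : 0 < δ) (hδ1 : 0 < δ1) {C : ℝ}
    (hC : Real.exp (δ / 2) * (gg δ + Real.exp (-(δ + δ1)) * X0 δ1) < C) :
    ∀ᶠ T : ℝ in atTop, ∀ a H : ℝ, Adm α T a H → ZZ 0 T a H ≤ C * mm T H := by
  obtain ⟨m, hα⟩ := exists_nat_ge α
  set Zc := gg δ + Real.exp (-(δ + δ1)) * X0 δ1 with hZc
  set l := Real.exp (δ / 2) with hl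
  have hl0 : 0 < l := Real.exp_pos _
  have hll : l⁻¹ * Real.exp δ = l := by
    rw [hl, ← Real.exp_neg, ← Real.exp_add]; congr 1; ring
  set Φ : ℝ → ℝ := fun η => (1 / 2 + η) * (l * (Zc + η) + l⁻¹ * ((Real.exp δ + η) * (Zc + η + η))) + η
    with hΦ
  have hΦ0 : Φ 0 < C := by
    refine lt_of_eq_of_lt ?_ hC
    simp only [hΦ, add_zero]
    rw [← mul_assoc l⁻¹, hll]
    ring
  have hcont : ContinuousAt Φ 0 := by
    simp only [hΦ]
    fun_prop
  obtain ⟨η, hη, h1, -⟩ := exists_small hcont hΦ0 (fun _ => True) (Eventually.of_forall fun _ => trivial)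
  filter_upwards [strip_ev (α := α) 0 hδ hl0 hη, fe_ev (α := α) hδ.le hη,
    Z_ev (α := α) hα hδ.le hδ1 (show gg δ + Real.exp (-(δ + δ1)) * X0 δ1 < Zc + η by linarith), big_log]
    with T r1 f1 z1 b1 a H hA
  have hH : 0 < H := hA.2.1
  have hM := mm_pos b1.1 hH
  have r1 := r1 a H hA
  have f1 := f1 a H hA
  have z1 := z1 a H hA
  rw [zero_add, zero_sub] at r1
  set M := mm T H
  have k1 : ZZ (-δ) T a H ≤ (Real.exp δ + η) * ((Zc + η) * M + η * M) :=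
    f1.trans (mul_le_mul_of_nonneg_left (by linarith) (by positivity))
  have k2 : l * ZZ δ T a H + l⁻¹ * ZZ (-δ) T a H ≤
      l * ((Zc + η) * M) + l⁻¹ * ((Real.exp δ + η) * ((Zc + η) * M + η * M)) :=
    add_le_add (mul_le_mul_of_nonneg_left z1 hl0.le) (mul_le_mul_of_nonneg_left k1 (by positivity))
  have k3 : ZZ 0 T a H ≤ Φ η * M := by
    refine r1.trans ?_
    have := mul_le_mul_of_nonneg_left k2 (show 0 ≤ 1 / 2 + η by positivity)
    simp only [hΦ]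
    calc (1 / 2 + η) * (l * ZZ δ T a H + l⁻¹ * ZZ (-δ) T a H) + η * M ≤
        (1 / 2 + η) * (l * ((Zc + η) * M) + l⁻¹ * ((Real.exp δ + η) * ((Zc + η) * M + η * M))) + η * M := by
          linarith
      _ = _ := by ring
  exact k3.trans (mul_le_mul_of_nonneg_right h1.le hM.le)

theorem lower_ev {α : ℝ} {δ ε δ1 l : ℝ} (hδ : 0 < δ) (hε : 0 < ε) (hδ1 : 0 < δ1) (hl : 0 < l) {c z2 : ℝ}
    (hz : gg (2 * δ) + Real.exp (-(2 * δ + δ1)) * X0 δ1 < z2)
    (hc : c * (l⁻¹ / 2 + Real.exp (-(δ + ε)) * Real.exp ε) <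
      gg δ - l * z2 / 2 - Real.exp (-(δ + ε)) * gg (-ε)) :
    ∀ᶠ T : ℝ in atTop, ∀ a H : ℝ, Adm α T a H → c * mm T H ≤ ZZ 0 T a H := by
  obtain ⟨m, hα⟩ := exists_nat_ge α
  set q := Real.exp (-(δ + ε)) with hq
  set E := Real.exp ε with hE
  have hq0 : 0 < q := Real.exp_pos _
  have hE0 : 0 < E := Real.exp_pos _
  have hl' : 0 < l⁻¹ := inv_pos.mpr hl
  set Φ : ℝ → ℝ := fun η => c * ((1 / 2 + η) * l⁻¹ + (q + η) * (E + η) * (1 + η)) -
    ((gg δ - η) - (1 / 2 + η) * (l * z2) - η - (q + η) * ((E + η) * ((1 + η) * η + η) + gg (-ε) + 2 * η))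
    with hΦ
  have hΦ0 : Φ 0 < 0 := by
    simp only [hΦ, add_zero, sub_zero, mul_zero]
    linarith
  have hcont : ContinuousAt Φ 0 := by
    simp only [hΦ]
    fun_prop
  obtain ⟨η, hη, h1, -⟩ := exists_small hcont hΦ0 (fun _ => True) (Eventually.of_forall fun _ => trivial)
  filter_upwards [S_ev hα δ hη, S_ev hα (-ε) hη, strip_ev (α := α) δ hδ hl hη, fe_ev (α := α) hε.le hη,
    zhalf_ev (α := α) hε hη, half_ev hα hδ.le hε.le (by linarith) hη, TR (m + 1) δ, TR (m + 1) (-ε),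
    Z_ev (α := α) hα (by linarith : 0 ≤ 2 * δ) hδ1 hz, big_log]
    with T s1 s2 r1 f1 zh d1 t1 t2 z1 b1 a H hA
  have hH : 0 < H := hA.2.1
  have hM := mm_pos b1.1 hH
  obtain ⟨-, s1⟩ := s1 a H hA
  obtain ⟨s2, -⟩ := s2 a H hA
  have r1 := r1 a H hA
  have f1 := f1 a H hA
  have zh := zh a H hA
  have d1 := d1 a H hA
  obtain ⟨-, -, t1⟩ := t1 a H hH.le
  obtain ⟨-, t2, -⟩ := t2 a H hH.le
  have z1 := z1 a H hA
  rw [sub_self, ← two_mul] at r1
  set M := mm T H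
  set Z0 := ZZ 0 T a H
  change (gg δ - η) * M ≤ SZ (m + 1) δ T a H at s1
  change SZ (m + 1) (-ε) T a H ≤ (gg (-ε) + η) * M at s2
  have k1 : ZZ (-ε) T a H ≤ (E + η) * ((1 + η) * (Z0 + η * M) + η * M) :=
    f1.trans (mul_le_mul_of_nonneg_left (by linarith) (by positivity))
  have k2 : DZ (m + 1) δ T a H ≤ (q + η) * ((E + η) * ((1 + η) * (Z0 + η * M) + η * M) +
      (gg (-ε) + η) * M + η * M) :=
    d1.trans (mul_le_mul_of_nonneg_left (by linarith) (by positivity))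
  have k3 : ZZ δ T a H ≤ (1 / 2 + η) * (l * (z2 * M) + l⁻¹ * Z0) + η * M := by
    refine r1.trans (add_le_add_left (mul_le_mul_of_nonneg_left ?_ (by positivity)) _)
    exact add_le_add_left (mul_le_mul_of_nonneg_left z1 hl.le) _
  set Bη := (1 / 2 + η) * l⁻¹ + (q + η) * (E + η) * (1 + η) with hBη
  set Aη := (gg δ - η) - (1 / 2 + η) * (l * z2) - η -
    (q + η) * ((E + η) * ((1 + η) * η + η) + gg (-ε) + 2 * η) with hAη
  have hB : 0 < Bη := by positivity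
  have k4 : Aη * M ≤ Bη * Z0 := by
    have : (gg δ - η) * M ≤ ((1 / 2 + η) * (l * (z2 * M) + l⁻¹ * Z0) + η * M) +
        (q + η) * ((E + η) * ((1 + η) * (Z0 + η * M) + η * M) + (gg (-ε) + η) * M + η * M) := by
      linarith
    have e : ((1 / 2 + η) * (l * (z2 * M) + l⁻¹ * Z0) + η * M) +
        (q + η) * ((E + η) * ((1 + η) * (Z0 + η * M) + η * M) + (gg (-ε) + η) * M + η * M) =
        (gg δ - η) * M - Aη * M + Bη * Z0 := by
      rw [hAη, hBη]; ring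
    rw [e] at this
    linarith
  have h1' : c * Bη < Aη := by
    have : c * Bη - Aη < 0 := h1
    linarith
  have k5 : Bη * (c * M) ≤ Bη * Z0 := by
    calc Bη * (c * M) = (c * Bη) * M := by ring
      _ ≤ Aη * M := mul_le_mul_of_nonneg_right h1'.le hM.le
      _ ≤ Bη * Z0 := k4
  exact le_of_mul_le_mul_left k5 hB

/-- `a(1/2) / Γ(5/4)` -/
noncomputable def A0 : ℝ := aF kh / Real.Gamma (kh ^ 2 + 1)

lemma A0_pos : 0 < A0 := by
  have := aF_pos kh_pos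
  have : 0 < Real.Gamma (kh ^ 2 + 1) := Real.Gamma_pos_of_pos (by have := kh_pos; positivity)
  unfold A0
  positivity

lemma gg_eq (δ : ℝ) : gg δ = A0 * hI q4 (2 * δ) := by
  unfold gg A0
  rw [gI_eq kh_pos]
  unfold q4 kh
  ring

theorem first_upper {α : ℝ} : ∀ᶠ T : ℝ in atTop, ∀ a H : ℝ, Adm α T a H →
    ZZ 0 T a H ≤ (107 / 50 * A0) * mm T H := by
  refine upper_ev (δ := 59 / 50) (δ1 := 11 / 5) (by norm_num) (by norm_num) ?_
  have h := num_upper
  have hA := A0_pos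
  unfold X0
  rw [gg_eq, gg_eq, gg_eq]
  have e1 : (59:ℝ) / 50 / 2 = 59 / 100 := by norm_num
  have e2 : (2:ℝ) * (59 / 50) = 59 / 25 := by norm_num
  have e3 : (59:ℝ) / 50 + 11 / 5 = 169 / 50 := by norm_num
  have e4 : (2:ℝ) * (11 / 5) = 22 / 5 := by norm_num
  have e5 : (2:ℝ) * (-(11 / 5)) = -(22 / 5) := by norm_num
  rw [e1, e2, e3, e4, e5]
  calc _ = A0 * (Real.exp (59 / 100) * (hI q4 (59 / 25) + Real.exp (-(169 / 50)) *
        ((hI q4 (-(22 / 5)) + Real.exp (11 / 5) * hI q4 (22 / 5)) / (1 - Real.exp (-(11 / 5)))))) := by ring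
    _ < A0 * (107 / 50) := mul_lt_mul_of_pos_left h hA
    _ = _ := by ring

/-- numerical inequality for the lower bound -/
lemma num_X0 : (hI q4 (-(22 / 5)) + Real.exp (11 / 5) * hI q4 (22 / 5)) / (1 - Real.exp (-(11 / 5))) ≤
    13.6 := by
  have a4 := hm44
  have a5 := h44
  have a6 := e22n
  have a7 := e22n'
  have e22 : Real.exp (11 / 5) ≤ 9.02512 := by
    rw [exp_inv, inv_le_comm₀ (Real.exp_pos _) (by norm_num)]
    refine le_trans ?_ a7
    norm_num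
  have b5 := Real.exp_pos (11 / 5)
  have c1 : Real.exp (11 / 5) * hI q4 (22 / 5) ≤ 9.02512 * 0.62523 := by
    calc Real.exp (11 / 5) * hI q4 (22 / 5) ≤ Real.exp (11 / 5) * 0.62523 :=
          mul_le_mul_of_nonneg_left a5 b5.le
      _ ≤ _ := mul_le_mul_of_nonneg_right e22 (by norm_num)
  rw [div_le_iff₀ (by linarith)]
  linarith

theorem first_lower {α : ℝ} : ∀ᶠ T : ℝ in atTop, ∀ a H : ℝ, Adm α T a H →
    (59 / 100 * A0) * mm T H ≤ ZZ 0 T a H := by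
  have hA := A0_pos
  refine lower_ev (δ := 22 / 5) (ε := 7 / 5) (δ1 := 11 / 5) (l := 29 / 25) (z2 := A0 * 0.44276)
    (by norm_num) (by norm_num) (by norm_num) (by norm_num) ?_ ?_
  · have h := num_X0
    have h2 := h176
    unfold X0
    rw [gg_eq, gg_eq, gg_eq]
    have e2 : (2:ℝ) * (2 * (22 / 5)) = 88 / 5 := by norm_num
    have e3 : (2:ℝ) * (22 / 5) + 11 / 5 = 11 := by norm_num
    have e4 : (2:ℝ) * (11 / 5) = 22 / 5 := by norm_num
    have e5 : (2:ℝ) * (-(11 / 5)) = -(22 / 5) := by norm_num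
    rw [e2, e3, e4, e5]
    have h3 : Real.exp (-11) ≤ 0.0000168 := by
      have e : Real.exp (-11) = Real.exp (-(11 / 5)) ^ 5 := by
        rw [← Real.exp_nat_mul]; congr 1; norm_num
      rw [e]
      calc Real.exp (-(11 / 5)) ^ 5 ≤ 0.110804 ^ 5 :=
            pow_le_pow_left₀ (Real.exp_pos _).le e22n 5
        _ ≤ _ := by norm_num
    have h4 : Real.exp (-11) * ((hI q4 (-(22 / 5)) + Real.exp (11 / 5) * hI q4 (22 / 5)) /
        (1 - Real.exp (-(11 / 5)))) ≤ 0.0000168 * 13.6 := by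
      calc _ ≤ Real.exp (-11) * 13.6 := mul_le_mul_of_nonneg_left h (Real.exp_pos _).le
        _ ≤ _ := mul_le_mul_of_nonneg_right h3 (by norm_num)
    calc _ = A0 * (hI q4 (88 / 5) + Real.exp (-11) * ((hI q4 (-(22 / 5)) +
          Real.exp (11 / 5) * hI q4 (22 / 5)) / (1 - Real.exp (-(11 / 5))))) := by ring
      _ < A0 * 0.44276 := by
        refine mul_lt_mul_of_pos_left ?_ hA
        have : (0.442531:ℝ) + 0.0000168 * 13.6 < 0.44276 := by norm_num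
        linarith
  · rw [gg_eq, gg_eq]
    have e2 : (2:ℝ) * (22 / 5) = 44 / 5 := by norm_num
    have e5 : (2:ℝ) * (-(7 / 5)) = -(14 / 5) := by norm_num
    have e6 : (22:ℝ) / 5 + 7 / 5 = 29 / 5 := by norm_num
    have e7 : Real.exp (-(29 / 5)) * Real.exp (7 / 5) = Real.exp (-(22 / 5)) := by
      rw [← Real.exp_add]; congr 1; norm_num
    rw [e2, e5, e6, e7]
    have a1 := h88
    have a2 := hm28
    have a3 := e58
    have a4 := e44
    have b1 : Real.exp (-(29 / 5)) * hI q4 (-(14 / 5)) ≤ 0.0030276 * 2.53583 := by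
      calc _ ≤ Real.exp (-(29 / 5)) * 2.53583 := mul_le_mul_of_nonneg_left a2 (Real.exp_pos _).le
        _ ≤ _ := mul_le_mul_of_nonneg_right a3 (by norm_num)
    have key : 59 / 100 * ((29 / 25 : ℝ)⁻¹ / 2 + Real.exp (-(22 / 5))) <
        hI q4 (44 / 5) - 29 / 25 * 0.44276 / 2 - Real.exp (-(29 / 5)) * hI q4 (-(14 / 5)) := by
      have c1 : 59 / 100 * ((29 / 25 : ℝ)⁻¹ / 2 + Real.exp (-(22 / 5))) ≤
          59 / 100 * ((29 / 25 : ℝ)⁻¹ / 2 + 0.012278) := by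
        refine mul_le_mul_of_nonneg_left ?_ (by norm_num)
        linarith
      have c2 : 59 / 100 * ((29 / 25 : ℝ)⁻¹ / 2 + 0.012278) <
          0.526255 - 29 / 25 * 0.44276 / 2 - 0.0030276 * 2.53583 := by norm_num
      linarith
    calc _ = A0 * (59 / 100 * ((29 / 25 : ℝ)⁻¹ / 2 + Real.exp (-(22 / 5)))) := by ring
      _ < A0 * (hI q4 (44 / 5) - 29 / 25 * 0.44276 / 2 - Real.exp (-(29 / 5)) * hI q4 (-(14 / 5))) :=
        mul_lt_mul_of_pos_left key hA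
      _ = _ := by ring

end Pool.Agent.R313.FM
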